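import Mathlib

/-!
Functions on the punctured plane which satisfy the convexity inequality, up to a family of quadratic
forms, extend to the whole plane.
-/

set_option autoImplicit false

namespace Pool.Agent.H73.MC

open Set Filter Topology

/-- removing the point `0` -/
theorem rem (ψ : (Fin 2 → ℝ) → ℝ) (q : ℝ → (Fin 2 → ℝ) → ℝ)
    (hq : ∀ β (r : ℝ) u, q β (r • u) = r ^ 2 * q β u)
    (hG : ∀ β x y t, x ≠ 0 → y ≠ 0 → (1 - t) • x + t • y ≠ 0 → 0 ≤ t → t ≤ 1 →
      ψ ((1 - t) • x + t • y) + q β ((1 - t) • x + t • y) ≤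
        (1 - t) * (ψ x + q β x) + t * (ψ y + q β y)) :
    ∃ L : ℝ, (∀ u, u ≠ 0 → L ≤ (ψ u + ψ (-u)) / 2 + q 0 u) ∧
      ∀ β x y t, 0 ≤ t → t ≤ 1 →
      (if (1 - t) • x + t • y = 0 then L else ψ ((1 - t) • x + t • y))
          + q β ((1 - t) • x + t • y) ≤
        (1 - t) * ((if x = 0 then L else ψ x) + q β x) + t * ((if y = 0 then L else ψ y) + q β y) := by
  classical
  have hqn : ∀ β u, q β (-u) = q β u := fun β u => by
    have := hq β (-1) u
    simpa using this
  have hq0 : ∀ β, q β 0 = 0 := fun β => by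
    have := hq β 0 0
    simpa using this
  set A : ℝ → (Fin 2 → ℝ) → ℝ := fun β u => (ψ u + ψ (-u)) / 2 + q β u with hA
  -- scaling
  have ha : ∀ β u (r : ℝ), u ≠ 0 → 0 < r → r ≤ 1 → A β (r • u) ≤ A β u := by
    intro β u r hu h0 h1
    have hru : r • u ≠ 0 := smul_ne_zero h0.ne' hu
    have e1 : (1 - (1 - r) / 2) • u + ((1 - r) / 2) • (-u) = r • u := by
      rw [smul_neg, ← sub_eq_add_neg, ← sub_smul]; congr 1; ring
    have e2 : (1 - (1 - r) / 2) • (-u) + ((1 - r) / 2) • u = -(r • u) := by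
      rw [smul_neg, neg_add_eq_sub, ← sub_smul, ← neg_smul]; congr 1; ring
    have g1 := hG β u (-u) ((1 - r) / 2) hu (neg_ne_zero.2 hu) (by rw [e1]; exact hru)
      (by linarith) (by linarith)
    have g2 := hG β (-u) u ((1 - r) / 2) (neg_ne_zero.2 hu) hu (by rw [e2]; exact neg_ne_zero.2 hru)
      (by linarith) (by linarith)
    rw [e1] at g1
    rw [e2] at g2
    simp only [hA]
    have n1 := hqn β u
    have n2 := hqn β (r • u)
    rw [n1] at g1 g2
    rw [n2] at g2
    nlinarith [g1, g2]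
  have hb : ∀ β u w t, u ≠ 0 → w ≠ 0 → 0 < t → t ≤ 1 → t • w + (1 - t) • u ≠ 0 →
      t • w - (1 - t) • u ≠ 0 → ψ (t • w) + q β (t • w) ≤ (1 - t) * A β u + t * (ψ w + q β w) := by
    intro β u w t hu hw h0 h1 hp hm
    have htw : t • w ≠ 0 := smul_ne_zero h0.ne' hw
    have e1 : (1 - t) • u + t • w = t • w + (1 - t) • u := by abel
    have e2 : (1 - t) • (-u) + t • w = t • w - (1 - t) • u := by
      rw [smul_neg]; abel
    have g1 := hG β u w t hu hw (by rw [e1]; exact hp) h0.le h1
    have g2 := hG β (-u) w t (neg_ne_zero.2 hu) hw (by rw [e2]; exact hm) h0.le h1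
    have e3 : (1 - (1:ℝ) / 2) • ((1 - t) • u + t • w) + ((1:ℝ) / 2) • ((1 - t) • (-u) + t • w)
        = t • w := by
      ext i
      simp only [Pi.add_apply, Pi.smul_apply, Pi.neg_apply, smul_eq_mul]
      ring
    have g3 := hG β ((1 - t) • u + t • w) ((1 - t) • (-u) + t • w) (1 / 2)
      (by rw [e1]; exact hp) (by rw [e2]; exact hm)
      (by rw [e3]; exact htw) (by norm_num) (by norm_num)
    rw [e3] at g3
    rw [hqn] at g2
    simp only [hA]
    nlinarith [g1, g2, g3]
  have hc : ∀ β u w t, u ≠ 0 → w ≠ 0 → 0 < t → t ≤ 1 →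
      ψ (t • w) + q β (t • w) ≤ (1 - t) * A 0 u + t * (ψ w + q β w) := by
    intro β u w t hu hw h0 h1
    have htw : t • w ≠ 0 := smul_ne_zero h0.ne' hw
    have lim : Tendsto (fun r : ℝ => (1 - t) * (A 0 u + r ^ 2 * (q β u - q 0 u))
        + t * (ψ w + q β w)) (𝓝[>] 0) (𝓝 ((1 - t) * A 0 u + t * (ψ w + q β w))) := by
      have hcont : Continuous (fun r : ℝ => (1 - t) * (A 0 u + r ^ 2 * (q β u - q 0 u))
        + t * (ψ w + q β w)) := by fun_prop
      have := (hcont.tendsto 0).mono_left (nhdsWithin_le_nhds (s := Ioi 0))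
      simpa using this
    refine ge_of_tendsto lim ?_
    have n1 : ∀ᶠ r : ℝ in 𝓝[>] 0, t • w + (1 - t) • (r • u) ≠ 0 := by
      have hcont : Continuous (fun r : ℝ => t • w + (1 - t) • (r • u)) := by fun_prop
      have := (hcont.tendsto 0).mono_left (nhdsWithin_le_nhds (s := Ioi 0))
      simp only [zero_smul, smul_zero, add_zero] at this
      exact this.eventually_ne htw
    have n2 : ∀ᶠ r : ℝ in 𝓝[>] 0, t • w - (1 - t) • (r • u) ≠ 0 := by
      have hcont : Continuous (fun r : ℝ => t • w - (1 - t) • (r • u)) := by fun_prop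
      have := (hcont.tendsto 0).mono_left (nhdsWithin_le_nhds (s := Ioi 0))
      simp only [zero_smul, smul_zero, sub_zero] at this
      exact this.eventually_ne htw
    have n3 : ∀ᶠ r : ℝ in 𝓝[>] 0, r ≤ 1 :=
      nhdsWithin_le_nhds (s := Ioi 0) (Iic_mem_nhds (by norm_num : (0:ℝ) < 1))
    filter_upwards [n1, n2, n3, self_mem_nhdsWithin] with r r1 r2 r3 r4
    have r4' : 0 < r := r4
    have g := hb β (r • u) w t (smul_ne_zero r4'.ne' hu) hw h0 h1 r1 r2
    have g2 := ha 0 u r hu r4' r3
    have e : A β (r • u) = A 0 (r • u) + r ^ 2 * (q β u - q 0 u) := by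
      simp only [hA, hq]; ring
    rw [e] at g
    have h1t : 0 ≤ 1 - t := by linarith
    nlinarith [mul_le_mul_of_nonneg_left g2 h1t]
  have he : (![1, 0] : Fin 2 → ℝ) ≠ 0 := fun h => by
    have := congrFun h 0
    simp at this
  have hne : Nonempty {u : Fin 2 → ℝ // u ≠ 0} := ⟨⟨![1, 0], he⟩⟩
  have hbd : BddBelow (range (fun u : {u : Fin 2 → ℝ // u ≠ 0} => A 0 u)) := by
    refine ⟨2 * (ψ ((1 / 2 : ℝ) • ![1, 0]) + q 0 ((1 / 2 : ℝ) • ![1, 0]))
      - (ψ ![1, 0] + q 0 ![1, 0]), ?_⟩
    rintro _ ⟨⟨u, hu⟩, rfl⟩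
    have g := hc 0 u ![1, 0] (1 / 2) hu he (by norm_num) (by norm_num)
    simp only
    linarith
  set L : ℝ := ⨅ u : {u : Fin 2 → ℝ // u ≠ 0}, A 0 u with hL
  have hL0 : ∀ u, u ≠ 0 → L ≤ A 0 u := fun u hu => ciInf_le hbd ⟨u, hu⟩
  have hf : ∀ β u, u ≠ 0 → L ≤ A β u := by
    intro β u hu
    have lim : Tendsto (fun r : ℝ => A β u + r ^ 2 * (q 0 u - q β u)) (𝓝[>] 0) (𝓝 (A β u)) := by
      have hcont : Continuous (fun r : ℝ => A β u + r ^ 2 * (q 0 u - q β u)) := by fun_prop
      have := (hcont.tendsto 0).mono_left (nhdsWithin_le_nhds (s := Ioi 0))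
      simpa using this
    refine ge_of_tendsto lim ?_
    have n3 : ∀ᶠ r : ℝ in 𝓝[>] 0, r ≤ 1 :=
      nhdsWithin_le_nhds (s := Ioi 0) (Iic_mem_nhds (by norm_num : (0:ℝ) < 1))
    filter_upwards [n3, self_mem_nhdsWithin] with r r3 r4
    have r4' : 0 < r := r4
    have g := hL0 (r • u) (smul_ne_zero r4'.ne' hu)
    have g2 := ha β u r hu r4' r3
    have e : A 0 (r • u) = A β (r • u) + r ^ 2 * (q 0 u - q β u) := by
      simp only [hA, hq]; ring
    rw [e] at g
    linarith
  have hg : ∀ β w t, w ≠ 0 → 0 < t → t ≤ 1 →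
      ψ (t • w) + q β (t • w) ≤ (1 - t) * L + t * (ψ w + q β w) := by
    intro β w t hw h0 h1
    rcases eq_or_lt_of_le h1 with rfl | h1'
    · simp
    · have h1t : 0 < 1 - t := by linarith
      have : ((ψ (t • w) + q β (t • w)) - t * (ψ w + q β w)) / (1 - t) ≤ L := by
        refine le_ciInf ?_
        rintro ⟨u, hu⟩
        rw [div_le_iff₀ h1t]
        have g := hc β u w t hu hw h0 h1
        simp only
        linarith
      rw [div_le_iff₀ h1t] at this
      linarith
  refine ⟨L, hL0, ?_⟩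
  intro β x y t h0 h1
  by_cases hx : x = 0
  · subst hx
    by_cases hy : y = 0
    · subst hy
      simp [hq0]
      linarith
    · rcases eq_or_lt_of_le h0 with rfl | h0'
      · simp [hq0]
      · have hz : t • y ≠ 0 := smul_ne_zero h0'.ne' hy
        have g := hg β y t hy h0' h1
        simp only [smul_zero, zero_add, if_neg hz, if_neg hy, if_true, hq0, add_zero]
        exact g
  · by_cases hy : y = 0
    · subst hy
      rcases eq_or_lt_of_le h1 with rfl | h1'
      · simp [hq0]
      · have h1t : 0 < 1 - t := by linarith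
        have hz : (1 - t) • x ≠ 0 := smul_ne_zero h1t.ne' hx
        have g := hg β x (1 - t) hx h1t (by linarith)
        simp only [smul_zero, add_zero, if_neg hz, if_neg hx, if_true, hq0]
        linarith
    · by_cases hz : (1 - t) • x + t • y = 0
      · rw [if_pos hz, if_neg hx, if_neg hy, hz, hq0]
        have ht0 : 0 < t := by
          rcases eq_or_lt_of_le h0 with rfl | h
          · simp at hz; exact absurd hz hx
          · exact h
        have ht1 : 0 < 1 - t := by
          rcases eq_or_lt_of_le h1 with rfl | h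
          · simp at hz; exact absurd hz hy
          · linarith
        set ε : ℝ := t * (1 - t) with hε
        have ε0 : 0 < ε := mul_pos ht0 ht1
        have ε1 : ε ≤ t := by nlinarith
        have ε2 : ε ≤ 1 - t := by nlinarith
        have hw : y - x ≠ 0 := by
          intro h
          have hyx : y = x := sub_eq_zero.1 h
          rw [hyx, ← add_smul] at hz
          simp at hz
          exact hx hz
        have hεw : ε • (y - x) ≠ 0 := smul_ne_zero ε0.ne' hw
        have e1 : (1 - (t + ε)) • x + (t + ε) • y = ε • (y - x) := by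
          have : (1 - (t + ε)) • x + (t + ε) • y = ((1 - t) • x + t • y) + ε • (y - x) := by
            module
          rw [this, hz, zero_add]
        have e2 : (1 - (t - ε)) • x + (t - ε) • y = -(ε • (y - x)) := by
          have : (1 - (t - ε)) • x + (t - ε) • y = ((1 - t) • x + t • y) - ε • (y - x) := by
            module
          rw [this, hz, zero_sub]
        have g1 := hG β x y (t + ε) hx hy (by rw [e1]; exact hεw) (by linarith) (by linarith)
        have g2 := hG β x y (t - ε) hx hy (by rw [e2]; exact neg_ne_zero.2 hεw) (by linarith)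
          (by linarith)
        rw [e1] at g1
        rw [e2, hqn] at g2
        have g3 := hf β (ε • (y - x)) hεw
        simp only [hA] at g3
        nlinarith [g1, g2, g3]
      · rw [if_neg hz, if_neg hx, if_neg hy]
        exact hG β x y t hx hy hz h0 h1

end Pool.Agent.H73.MC
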