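import Pool.Agent.H73.G.R8.Helper188.Morrey.Basic
import Pool.Agent.H73.MC.Rem

/-!
Rank-one convex functions `W(F) = Φ(F e₀, det F) + Q(F)`: supporting functions
`ψ(F e₀) + Q(F) + σ det F` which are rank-one convex.
-/

set_option autoImplicit false

namespace Pool.Agent.H73.MC

open Matrix Set Filter Topology
open Pool.Agent.Helper188.Morrey

abbrev V2 := Fin 2 → ℝ

/-- `a ∧ b` -/
def wd (a b : V2) : ℝ := a 0 * b 1 - a 1 * b 0

/-- matrix with the columns `p`, `q` -/
def mm (p q : V2) : M2 := !![p 0, q 0; p 1, q 1]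

/-- the first column -/
def col (F : M2) : V2 := fun r => F r 0

/-- rotation -/
def J (p : V2) : V2 := ![-p 1, p 0]

/-- squared norm -/
def ns (p : V2) : ℝ := p 0 ^ 2 + p 1 ^ 2

theorem ns_pos {p : V2} (h : p ≠ 0) : 0 < ns p := by
  have : p 0 ≠ 0 ∨ p 1 ≠ 0 := by
    by_contra hc
    push Not at hc
    exact h (by ext i; fin_cases i; exacts [hc.1, hc.2])
  rcases this with h | h
  · have := pow_pos (abs_pos.2 h) 2
    rw [sq_abs] at this
    unfold ns
    nlinarith [sq_nonneg (p 1)]
  · have := pow_pos (abs_pos.2 h) 2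
    rw [sq_abs] at this
    unfold ns
    nlinarith [sq_nonneg (p 0)]

theorem det_mm (p q : V2) : (mm p q).det = wd p q := by
  simp [mm, wd, det_fin_two]; ring

theorem col_mm (p q : V2) : col (mm p q) = p := by
  ext i; fin_cases i <;> rfl

theorem mm_add_smul (p q p' q' : V2) (t : ℝ) : mm p q + t • mm p' q' = mm (p + t • p') (q + t • q') := by
  ext i j; fin_cases i <;> fin_cases j <;> simp [mm]

theorem mm_eta (F : M2) : mm (col F) (fun r => F r 1) = F := by
  ext i j; fin_cases i <;> fin_cases j <;> rfl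

theorem Q_line (Q : QuadraticForm ℝ M2) (F H : M2) (t : ℝ) :
    Q (F + t • H) = (1 - t) * Q F + t * Q (F + H) - t * (1 - t) * Q H := by
  have h1 := QuadraticMap.map_add Q F (t • H)
  have h2 := QuadraticMap.map_add Q F H
  rw [QuadraticMap.polar_smul_right, QuadraticMap.map_smul] at h1
  rw [h1, h2]
  simp only [smul_eq_mul]
  ring

/-- the quadratic form on the first column -/
def qf (Q : QuadraticForm ℝ M2) (β : ℝ) (c : V2) : ℝ := Q (mm c (β • c))

theorem qf_smul (Q : QuadraticForm ℝ M2) (β r : ℝ) (c : V2) : qf Q β (r • c) = r ^ 2 * qf Q β c := by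
  have e : mm (r • c) (β • (r • c)) = r • mm c (β • c) := by
    ext i j; fin_cases i <;> fin_cases j <;> simp [mm] <;> ring
  rw [qf, e, QuadraticMap.map_smul, qf, smul_eq_mul]
  ring

theorem qf_line (Q : QuadraticForm ℝ M2) (β t : ℝ) (x y : V2) :
    qf Q β ((1 - t) • x + t • y) =
      (1 - t) * qf Q β x + t * qf Q β y - t * (1 - t) * qf Q β (y - x) := by
  have h := Q_line Q (mm x (β • x)) (mm (y - x) (β • (y - x))) t
  have h1 : mm x (β • x) + mm (y - x) (β • (y - x)) = mm y (β • y) := by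
    ext i j; fin_cases i <;> fin_cases j <;> simp [mm] <;> ring
  have h2 : mm x (β • x) + t • mm (y - x) (β • (y - x))
      = mm ((1 - t) • x + t • y) (β • ((1 - t) • x + t • y)) := by
    ext i j; fin_cases i <;> fin_cases j <;> simp [mm] <;> ring
  rw [h1, h2] at h
  exact h

section

variable {W : M2 → ℝ} {Φ : V2 → ℝ → ℝ} {Q : QuadraticForm ℝ M2}

/-- the basic inequality for independent `x`, `y` -/
theorem star1 (hW : RankOneConvex W) (hWe : ∀ F, W F = Φ (col F) F.det + Q F)
    (x y : V2) (hD : wd x y ≠ 0) (δ₀ δ₁ β t : ℝ) (h0 : 0 ≤ t) (h1 : t ≤ 1) :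
    Φ ((1 - t) • x + t • y) ((1 - t) * δ₀ + t * δ₁) ≤
      (1 - t) * Φ x δ₀ + t * Φ y δ₁ + t * (1 - t) * qf Q β (y - x) := by
  set D := wd x y with hDe
  set g : V2 := (β - δ₁ / D) • x + (δ₀ / D) • y with hg
  have hDe' : D = x 0 * y 1 - x 1 * y 0 := hDe
  have k0 : (y - x) 0 = y 0 - x 0 := rfl
  have k1 : (y - x) 1 = y 1 - x 1 := rfl
  have hdet : (mm (y - x) (β • (y - x))).det = 0 := by
    rw [det_mm]; simp [wd]; ring
  have h := RankOneConvex.seg hW (mm x g) (mm (y - x) (β • (y - x))) hdet h0 h1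
  have hs1 : mm x g + mm (y - x) (β • (y - x)) = mm y (g + β • (y - x)) := by
    have := mm_add_smul x g (y - x) (β • (y - x)) 1
    simpa using this
  have hx : x + t • (y - x) = (1 - t) • x + t • y := by module
  rw [hWe, hWe, hWe, Q_line, mm_add_smul, hs1, col_mm, col_mm, col_mm, det_mm, det_mm, det_mm, hx] at h
  have gen0 : ∀ a b : ℝ, wd x (a • x + b • y) = b * wd x y := fun a b => by
    simp [wd]; ring
  have gen1 : ∀ a b : ℝ, wd y (a • x + b • y + β • (y - x)) = (β - a) * wd x y := fun a b => by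
    simp [wd]; ring
  have d0 : wd x g = δ₀ := by
    rw [hg, gen0, ← hDe]; field_simp
  have d1 : wd y (g + β • (y - x)) = δ₁ := by
    rw [hg, gen1, ← hDe, sub_sub_cancel]; field_simp
  have dt : wd ((1 - t) • x + t • y) (g + t • (β • (y - x))) = (1 - t) * δ₀ + t * δ₁ := by
    rw [← d0, ← d1]
    have : wd ((1 - t) • x + t • y) (g + t • (β • (y - x)))
        - ((1 - t) * wd x g + t * wd y (g + β • (y - x))) = 0 := by
      simp [wd]; ring
    linarith
  rw [d0, d1, dt] at h
  simp only [qf]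
  linarith

theorem phi_eq (hWe : ∀ F, W F = Φ (col F) F.det + Q F) {p : V2} (hp : p ≠ 0) (δ : ℝ) :
    Φ p δ = W (mm p ((δ / ns p) • J p)) - Q (mm p ((δ / ns p) • J p)) := by
  have h := hWe (mm p ((δ / ns p) • J p))
  have hn := (ns_pos hp).ne'
  have : wd p ((δ / ns p) • J p) = δ := by
    have : wd p ((δ / ns p) • J p) = (δ / ns p) * ns p := by
      simp [wd, J, ns]; ring
    rw [this]; field_simp
  rw [col_mm, det_mm, this] at h
  rw [h]; ring

theorem cont_ns : Continuous ns := by unfold ns; fun_prop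

theorem cont_J : Continuous J := by
  unfold J
  refine continuous_pi fun i => ?_
  fin_cases i
  · simp; fun_prop
  · simp; fun_prop

theorem cont_mm : Continuous (fun p : V2 × V2 => mm p.1 p.2) := by
  refine continuous_pi fun i => continuous_pi fun j => ?_
  fin_cases i <;> fin_cases j <;> simp [mm] <;> fun_prop

/-- `Φ` is continuous off `p = 0` -/
theorem phi_tend (hWc : Continuous W) (hQc : Continuous (fun F : M2 => Q F))
    (hWe : ∀ F, W F = Φ (col F) F.det + Q F) {p : V2} (hp : p ≠ 0) (a : V2) (δ : ℝ) :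
    Tendsto (fun s : ℝ => Φ (p + s • a) δ) (𝓝 0) (𝓝 (Φ p δ)) := by
  have hn := (ns_pos hp).ne'
  have hpath : Continuous (fun s : ℝ => p + s • a) := by fun_prop
  have hat : ContinuousAt (fun s : ℝ => mm (p + s • a) ((δ / ns (p + s • a)) • J (p + s • a))) 0 := by
    have h1 : ContinuousAt (fun s : ℝ => (δ / ns (p + s • a)) • J (p + s • a)) 0 := by
      refine ContinuousAt.smul (ContinuousAt.div continuousAt_const
        (cont_ns.comp hpath).continuousAt ?_) (cont_J.comp hpath).continuousAt
      simpa using hn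
    exact ContinuousAt.comp (f := fun s : ℝ => (p + s • a, (δ / ns (p + s • a)) • J (p + s • a)))
      (x := (0:ℝ)) cont_mm.continuousAt (hpath.continuousAt.prodMk h1)
  have hU : Continuous (fun F : M2 => W F - Q F) := hWc.sub hQc
  have h2 := (ContinuousAt.comp (f := fun s : ℝ =>
    mm (p + s • a) ((δ / ns (p + s • a)) • J (p + s • a))) (x := (0:ℝ)) hU.continuousAt hat).tendsto
  have e0 : ((fun F : M2 => W F - Q F) ∘ fun s : ℝ =>
    mm (p + s • a) ((δ / ns (p + s • a)) • J (p + s • a))) 0 = Φ p δ := by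
    simp only [Function.comp, zero_smul, add_zero]
    exact (phi_eq hWe hp δ).symm
  rw [e0] at h2
  refine h2.congr' ?_
  have hne : ∀ᶠ s : ℝ in 𝓝 0, p + s • a ≠ 0 := by
    have := hpath.tendsto 0
    simp only [zero_smul, add_zero] at this
    exact this.eventually_ne hp
  filter_upwards [hne] with s hs
  exact (phi_eq hWe hs δ).symm

/-- the basic inequality -/
theorem star (hW : RankOneConvex W) (hQc : Continuous (fun F : M2 => Q F))
    (hWe : ∀ F, W F = Φ (col F) F.det + Q F)
    (x y : V2) (hx : x ≠ 0) (hy : y ≠ 0) (t : ℝ) (hz : (1 - t) • x + t • y ≠ 0)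
    (δ₀ δ₁ β : ℝ) (h0 : 0 ≤ t) (h1 : t ≤ 1) :
    Φ ((1 - t) • x + t • y) ((1 - t) * δ₀ + t * δ₁) ≤
      (1 - t) * Φ x δ₀ + t * Φ y δ₁ + t * (1 - t) * qf Q β (y - x) := by
  by_cases hD : wd x y = 0
  · set z := (1 - t) • x + t • y with hze
    have hWc := RankOneConvex.continuous hW
    have hn := (ns_pos hz).ne'
    have l1 := phi_tend hWc hQc hWe hx (t • J z) δ₀
    have l2 := phi_tend hWc hQc hWe hy (-((1 - t) • J z)) δ₁
    have l3 : Tendsto (fun s : ℝ => qf Q β ((y + s • (-((1 - t) • J z))) - (x + s • (t • J z))))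
        (𝓝 0) (𝓝 (qf Q β (y - x))) := by
      have hc : Continuous (fun s : ℝ =>
          qf Q β ((y + s • (-((1 - t) • J z))) - (x + s • (t • J z)))) := by
        unfold qf
        refine hQc.comp (cont_mm.comp (f := fun s : ℝ =>
          ((y + s • (-((1 - t) • J z))) - (x + s • (t • J z)),
            β • ((y + s • (-((1 - t) • J z))) - (x + s • (t • J z))))) ?_)
        fun_prop
      have := hc.tendsto 0
      simpa using this
    have l := ((l1.const_mul (1 - t)).add (l2.const_mul t)).add (l3.const_mul (t * (1 - t)))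
    have l' := l.mono_left (nhdsWithin_le_nhds (s := {(0:ℝ)}ᶜ))
    refine ge_of_tendsto l' ?_
    filter_upwards [self_mem_nhdsWithin] with s hs
    have hs' : s ≠ 0 := hs
    have hd : wd (x + s • (t • J z)) (y + s • (-((1 - t) • J z))) ≠ 0 := by
      have : wd (x + s • (t • J z)) (y + s • (-((1 - t) • J z))) = wd x y - s * ns z := by
        have e0 : z 0 = (1 - t) * x 0 + t * y 0 := rfl
        have e1 : z 1 = (1 - t) * x 1 + t * y 1 := rfl
        simp [wd, J, ns, e0, e1]; ring
      rw [this, hD, zero_sub]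
      exact neg_ne_zero.2 (mul_ne_zero hs' hn)
    have h := star1 hW hWe _ _ hd δ₀ δ₁ β t h0 h1
    have e : (1 - t) • (x + s • (t • J z)) + t • (y + s • (-((1 - t) • J z))) = z := by
      rw [hze]; module
    rw [e] at h
    exact h
  · exact star1 hW hWe x y hD δ₀ δ₁ β t h0 h1

end

/-- supporting lines -/
theorem exists_support (f : ℝ → ℝ) (hf : ∀ a b t : ℝ, 0 ≤ t → t ≤ 1 →
    f ((1 - t) * a + t * b) ≤ (1 - t) * f a + t * f b) (c : ℝ) :
    ∃ σ : ℝ, ∀ d, f c + σ * (d - c) ≤ f d := by
  -- left slopes are at most right slopes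
  have key : ∀ a b, a < c → c < b → (f c - f a) / (c - a) ≤ (f b - f c) / (b - c) := by
    intro a b ha hb
    have hab : 0 < b - a := by linarith
    have h := hf a b ((c - a) / (b - a)) (div_nonneg (by linarith) hab.le)
      ((div_le_one hab).2 (by linarith))
    have e : (1 - (c - a) / (b - a)) * a + (c - a) / (b - a) * b = c := by
      field_simp; ring
    rw [e] at h
    rw [div_le_div_iff₀ (by linarith) (by linarith)]
    have h2 : (b - a) * f c ≤ (b - c) * f a + (c - a) * f b := by
      have := mul_le_mul_of_nonneg_left h hab.le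
      have e2 : (b - a) * ((1 - (c - a) / (b - a)) * f a + (c - a) / (b - a) * f b)
        = (b - c) * f a + (c - a) * f b := by
        field_simp; ring
      rw [e2] at this
      exact this
    nlinarith
  set S : Set ℝ := (fun a => (f c - f a) / (c - a)) '' Iio c with hS
  have hSn : S.Nonempty := ⟨_, c - 1, by simp, rfl⟩
  have hSb : ∀ b, c < b → ∀ s ∈ S, s ≤ (f b - f c) / (b - c) := by
    rintro b hb _ ⟨a, ha, rfl⟩
    exact key a b ha hb
  refine ⟨sSup S, fun d => ?_⟩
  rcases lt_trichotomy d c with h | h | h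
  · have h1 : (f c - f d) / (c - d) ≤ sSup S :=
      le_csSup ⟨_, hSb (c + 1) (by linarith)⟩ ⟨d, h, rfl⟩
    rw [div_le_iff₀ (by linarith)] at h1
    linarith
  · subst h; simp
  · have h1 : sSup S ≤ (f d - f c) / (d - c) := csSup_le hSn (hSb d h)
    rw [le_div_iff₀ (by linarith)] at h1
    linarith

end Pool.Agent.H73.MC
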