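import Pool.Agent.H73.G.RB.Q82.MD.Gen
import Pool.Agent.H73.G.RB.Q176.MD.Slem
import Pool.Agent.H73.G.RB.Q210.MD.SEL
import Pool.Agent.H73.G.RB.Q210.MD.PRIM
import Pool.Agent.H73.G.RB.Q144.MD.LC
import Pool.Agent.H73.G.RB.Q53.MD.Moll
import Pool.Agent.H73.G.RB.Q79.MD.CS
import Pool.Agent.H73.G.RB.Q79.MD.RS2
import Pool.Agent.H73.G.RB.Q128.MD.CRK

/-! The column class and the row class (library results of helper82's project MD). -/

set_option autoImplicit false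

namespace Pool.Agent.H73.MC

open Pool.Agent.Q82.MD

theorem hSEL : S_SEL := Pool.Agent.Q210.MD.sel Pool.Agent.Q176.MD.slem
theorem hFORM : S_FORM := Pool.Agent.Q176.MD.form hSEL Pool.Agent.Q210.MD.prim
theorem hMROC : S_MROC := Pool.Agent.Q53.MD.mroc Pool.Agent.Q53.MD.moll
theorem hC : S_C := Pool.Agent.Q128.MD.c hMROC Q144.MD.limq
  (Pool.Agent.Q79.MD.cs hFORM Q144.MD.lc)
theorem hR : S_R := Pool.Agent.Q128.MD.r hMROC Q144.MD.limq
  (Pool.Agent.Q79.MD.rs hFORM Q144.MD.lc)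

/-- the column class -/
theorem colClass (ψ : (Fin 2 → ℝ) → ℝ) (n : Fin 2 → ℝ)
    (Q : QuadraticForm ℝ (Matrix (Fin 2) (Fin 2) ℝ))
    (h : RankOneConvex (fun F => ψ (F.mulVec n) + Q F)) :
    Quasiconvex (fun F => ψ (F.mulVec n) + Q F) := gen1 hC Q144.MD.lc ψ n Q h

/-- the row class -/
theorem rowClass (ψ : (Fin 2 → ℝ) → ℝ) (m : Fin 2 → ℝ)
    (Q : QuadraticForm ℝ (Matrix (Fin 2) (Fin 2) ℝ))
    (h : RankOneConvex (fun F => ψ (Matrix.vecMul m F) + Q F)) :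
    Quasiconvex (fun F => ψ (Matrix.vecMul m F) + Q F) := gen2 hR Q144.MD.tc ψ m Q h

end Pool.Agent.H73.MC
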