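import Pool.Agent.H73.MC.Supp
import Pool.Agent.H73.MC.Base

/-!
Rank-one convex functions `Φ(F n, det F) + Q(F) + L(F)` are quasiconvex.
-/

set_option autoImplicit false

namespace Pool.Agent.H73.MC

open Matrix Set Filter Topology MeasureTheory
open Pool.Agent.Q82.MD (Quasiconvex gen1 gen2)

abbrev ROC := Pool.Agent.Q82.MD.RankOneConvex

abbrev Mt := Matrix (Fin 2) (Fin 2) ℝ

/-- an entry as a linear form -/
def ent (i j : Fin 2) : Mt →ₗ[ℝ] ℝ where
  toFun F := F i j
  map_add' _ _ := rfl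
  map_smul' _ _ := rfl

/-- the determinant as a quadratic form -/
noncomputable def dq : QuadraticForm ℝ Mt :=
  QuadraticMap.linMulLin (ent 0 0) (ent 1 1) - QuadraticMap.linMulLin (ent 0 1) (ent 1 0)

theorem dq_apply (F : Mt) : dq F = F.det := by
  rw [det_fin_two]; rfl

theorem cont_Q (Q : QuadraticForm ℝ Mt) : Continuous (fun F : Mt => Q F) := by
  obtain ⟨B, _, hB⟩ := Pool.Agent.Q82.MD.exists_bil Q
  have h := Pool.Agent.Q128.MD.cont_bil B
  have e : (fun F : Mt => Q F) = fun F => B F F := by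
    funext F; exact (hB F).symm
  rw [e]; exact h

theorem cont_L (L : Mt →ₗ[ℝ] ℝ) : Continuous (fun F : Mt => L F) :=
  L.continuous_of_finiteDimensional

theorem roc_cont {W : Mt → ℝ} (h : ROC W) : Continuous W :=
  Pool.Agent.Helper188.Morrey.RankOneConvex.continuous h

theorem det_line (F H : Mt) (t : ℝ) :
    (F + t • H).det = (1 - t) * F.det + t * (F + H).det - t * (1 - t) * H.det := by
  simp only [det_fin_two, Matrix.add_apply, Matrix.smul_apply, smul_eq_mul]; ring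

theorem seg_eq (F H : Mt) (t : ℝ) : (1 - t) • F + t • (F + H) = F + t • H := by
  rw [smul_add, sub_smul, one_smul]; abel

theorem roc_add_det {W : Mt → ℝ} (h : ROC W) (σ : ℝ) : ROC (fun F => W F + σ * F.det) := by
  intro F H hH t h0 h1
  have hd : H.det = 0 := Pool.Agent.Helper188.Morrey.det_eq_zero_of_rank hH.le
  have h2 := h F H hH t h0 h1
  rw [seg_eq] at h2 ⊢
  simp only
  rw [det_line, hd]
  nlinarith

theorem roc_add_lin {W : Mt → ℝ} (L : Mt →ₗ[ℝ] ℝ) (h : ROC W) : ROC (fun F => W F + L F) := by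
  intro F H hH t h0 h1
  have h2 := h F H hH t h0 h1
  have e : L ((1 - t) • F + t • (F + H)) = (1 - t) * L F + t * L (F + H) := by
    rw [map_add, map_smul, map_smul, smul_eq_mul, smul_eq_mul]
  simp only
  rw [e]
  nlinarith

theorem qc_add {W₁ W₂ : Mt → ℝ} (h₁ : Quasiconvex W₁) (c₁ : Continuous W₁) (h₂ : Quasiconvex W₂)
    (c₂ : Continuous W₂) : Quasiconvex (fun F => W₁ F + W₂ F) := by
  intro F₀ Ω hΩ hb ϑ hK h0
  have g1 := h₁ F₀ Ω hΩ hb ϑ hK h0
  have g2 := h₂ F₀ Ω hΩ hb ϑ hK h0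
  obtain ⟨K, hK⟩ := hK
  have i1 : IntegrableOn (fun x => W₁ (F₀ + LinearMap.toMatrix'
      ((fderiv ℝ ϑ x : (Fin 2 → ℝ) →L[ℝ] (Fin 2 → ℝ)) :
        (Fin 2 → ℝ) →ₗ[ℝ] (Fin 2 → ℝ)))) Ω := Q144.MD.int_grad c₁ F₀ hb hK
  have i2 : IntegrableOn (fun x => W₂ (F₀ + LinearMap.toMatrix'
      ((fderiv ℝ ϑ x : (Fin 2 → ℝ) →L[ℝ] (Fin 2 → ℝ)) :
        (Fin 2 → ℝ) →ₗ[ℝ] (Fin 2 → ℝ)))) Ω := Q144.MD.int_grad c₂ F₀ hb hK
  rw [add_mul]
  rw [integral_add i1 i2]
  exact add_le_add g1 g2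

/-- linear functions are quasiconvex -/
theorem qc_lin (L : Mt →ₗ[ℝ] ℝ) : Quasiconvex (fun F => L F) := by
  have key : ∀ n : Fin 2 → ℝ, ∀ a : Fin 2 → ℝ,
      Quasiconvex (fun F => a 0 * F.mulVec n 0 + a 1 * F.mulVec n 1) := by
    intro n a
    have h := colClass (fun p => a 0 * p 0 + a 1 * p 1) n 0 (by
      intro F H hH t h0 h1
      rw [seg_eq]
      simp only [_root_.zero_apply, add_zero]
      rw [Matrix.add_mulVec, Matrix.add_mulVec, Matrix.smul_mulVec]
      simp only [Pi.add_apply, Pi.smul_apply, smul_eq_mul]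
      apply le_of_eq
      ring)
    simpa using h
  have hs : ∀ i j : Fin 2, ∀ c : ℝ, Quasiconvex (fun F => c * F i j) := by
    intro i j c
    have h := key (Pi.single j 1) (fun r => if r = i then c else 0)
    have e : (fun F : Mt => (if (0:Fin 2) = i then c else 0) * F.mulVec (Pi.single j 1) 0
        + (if (1:Fin 2) = i then c else 0) * F.mulVec (Pi.single j 1) 1) = fun F => c * F i j := by
      funext F
      rw [Matrix.mulVec_single_one]
      fin_cases i <;> simp [Matrix.col_apply]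
    rw [e] at h
    exact h
  have hc : ∀ i j : Fin 2, ∀ c : ℝ, Continuous (fun F : Mt => c * F i j) := by
    intro i j c
    fun_prop
  have e : (fun F : Mt => L F) = fun F =>
      ((L (Matrix.single 0 0 1) * F 0 0 + L (Matrix.single 0 1 1) * F 0 1)
        + (L (Matrix.single 1 0 1) * F 1 0 + L (Matrix.single 1 1 1) * F 1 1)) := by
    funext F
    have h1 : F = F 0 0 • Matrix.single 0 0 1 + F 0 1 • Matrix.single 0 1 1
        + F 1 0 • Matrix.single 1 0 1 + F 1 1 • Matrix.single 1 1 1 := by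
      ext i j
      fin_cases i <;> fin_cases j <;> simp
    conv_lhs => rw [h1]
    simp only [map_add, map_smul, smul_eq_mul]
    ring
  rw [e]
  refine qc_add (qc_add (hs 0 0 _) (hc 0 0 _) (hs 0 1 _) (hc 0 1 _)) (by fun_prop)
    (qc_add (hs 1 0 _) (hc 1 0 _) (hs 1 1 _) (hc 1 1 _)) (by fun_prop)

/-- the inequality of quasiconvexity at `F₀` -/
def QcAt (W : Mt → ℝ) (F₀ : Mt) : Prop := ∀ Ω : Set (Fin 2 → ℝ),
    IsOpen Ω → Bornology.IsBounded Ω →
    ∀ ϑ : (Fin 2 → ℝ) → (Fin 2 → ℝ), (∃ K, LipschitzWith K ϑ) →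
      (∀ x, x ∉ Ω → ϑ x = 0) →
      W F₀ * (MeasureTheory.volume Ω).toReal ≤
        ∫ x in Ω, W (F₀ + LinearMap.toMatrix'
          ((fderiv ℝ ϑ x : (Fin 2 → ℝ) →L[ℝ] (Fin 2 → ℝ)) :
            (Fin 2 → ℝ) →ₗ[ℝ] (Fin 2 → ℝ)))

/-- a supporting function -/
theorem qcAt_of_support {W V : Mt → ℝ} {F₀ : Mt} (hW : Continuous W) (hVc : Continuous V)
    (hV : Quasiconvex V) (hle : ∀ F, V F ≤ W F) (heq : V F₀ = W F₀) : QcAt W F₀ := by
  intro Ω hΩ hb ϑ hK h0
  have g1 := hV F₀ Ω hΩ hb ϑ hK h0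
  obtain ⟨K, hK⟩ := hK
  have i1 : IntegrableOn (fun x => W (F₀ + LinearMap.toMatrix'
      ((fderiv ℝ ϑ x : (Fin 2 → ℝ) →L[ℝ] (Fin 2 → ℝ)) :
        (Fin 2 → ℝ) →ₗ[ℝ] (Fin 2 → ℝ)))) Ω := Q144.MD.int_grad hW F₀ hb hK
  have i2 : IntegrableOn (fun x => V (F₀ + LinearMap.toMatrix'
      ((fderiv ℝ ϑ x : (Fin 2 → ℝ) →L[ℝ] (Fin 2 → ℝ)) :
        (Fin 2 → ℝ) →ₗ[ℝ] (Fin 2 → ℝ)))) Ω := Q144.MD.int_grad hVc F₀ hb hK
  rw [heq] at g1
  exact g1.trans (integral_mono i2 i1 fun x => hle _)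

/-- the inequality passes to limits `F₀ + s E`, `s → 0` -/
theorem qcAt_lim {W : Mt → ℝ} (hW : Continuous W) (F₀ E : Mt)
    (h : ∀ s : ℝ, 0 < s → QcAt W (F₀ + s • E)) : QcAt W F₀ := by
  intro Ω hΩ hb ϑ hK h0
  have h' := fun s hs => h s hs Ω hΩ hb ϑ hK h0
  obtain ⟨K, hK⟩ := hK
  have : IsFiniteMeasure (volume.restrict Ω) :=
    ⟨by rw [Measure.restrict_apply_univ]; exact hb.measure_lt_top⟩
  set G : (Fin 2 → ℝ) → Mt := fun x => LinearMap.toMatrix'
      ((fderiv ℝ ϑ x : (Fin 2 → ℝ) →L[ℝ] (Fin 2 → ℝ)) :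
        (Fin 2 → ℝ) →ₗ[ℝ] (Fin 2 → ℝ)) with hG
  -- left side
  have hpath : Continuous (fun s : ℝ => F₀ + s • E) := by fun_prop
  have l1 : Tendsto (fun s : ℝ => W (F₀ + s • E) * (volume Ω).toReal) (𝓝[>] 0)
      (𝓝 (W F₀ * (volume Ω).toReal)) := by
    have hcc : Continuous (fun s : ℝ => W (F₀ + s • E) * (volume Ω).toReal) :=
      (hW.comp hpath).mul continuous_const
    have := (hcc.tendsto 0).mono_left (nhdsWithin_le_nhds (s := Ioi (0:ℝ)))
    simpa using this
  -- right side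
  obtain ⟨M, hM⟩ : ∃ M : ℝ, ∀ i j, |E i j| ≤ M := by
    refine ⟨∑ i, ∑ j, |E i j|, fun i j => ?_⟩
    have h1 : |E i j| ≤ ∑ j, |E i j| :=
      Finset.single_le_sum (f := fun j => |E i j|) (fun _ _ => abs_nonneg _) (Finset.mem_univ j)
    have h2 : ∑ j, |E i j| ≤ ∑ i, ∑ j, |E i j| :=
      Finset.single_le_sum (f := fun i => ∑ j, |E i j|)
        (fun _ _ => Finset.sum_nonneg fun _ _ => abs_nonneg _) (Finset.mem_univ i)
    linarith
  obtain ⟨C, hC⟩ := Pool.Agent.W779.Morrey.W_bound (W := W) hW F₀ (M + K)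
  have l2 : Tendsto (fun s : ℝ => ∫ x in Ω, W (F₀ + s • E + G x)) (𝓝[>] 0)
      (𝓝 (∫ x in Ω, W (F₀ + G x))) := by
    refine tendsto_integral_filter_of_dominated_convergence (fun _ => C) ?_ ?_
      (integrable_const C) ?_
    · refine Eventually.of_forall fun s => ?_
      exact (Q144.MD.int_grad hW (F₀ + s • E) hb hK).aestronglyMeasurable
    · have n3 : ∀ᶠ r : ℝ in 𝓝[>] 0, r ≤ 1 :=
        nhdsWithin_le_nhds (s := Ioi 0) (Iic_mem_nhds (by norm_num : (0:ℝ) < 1))
      filter_upwards [n3, self_mem_nhdsWithin] with s hs hs0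
      have hs0' : (0:ℝ) < s := hs0
      refine Eventually.of_forall fun x => ?_
      rw [add_assoc]
      refine hC _ fun r l => ?_
      have b1 : |G x r l| ≤ K := Pool.Agent.Helper188.Morrey.grad_bound hK x r l
      have b2 : |(s • E) r l| ≤ M := by
        rw [Matrix.smul_apply, smul_eq_mul, abs_mul, abs_of_pos hs0']
        have := hM r l
        nlinarith [abs_nonneg (E r l)]
      have e : (s • E + G x) r l = (s • E) r l + G x r l := rfl
      show |(s • E + G x) r l| ≤ M + K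
      rw [e]
      exact (abs_add_le _ _).trans (add_le_add b2 b1)
    · refine Eventually.of_forall fun x => ?_
      have hc : Continuous (fun s : ℝ => W (F₀ + s • E + G x)) := by
        exact hW.comp (by fun_prop)
      have := (hc.tendsto 0).mono_left (nhdsWithin_le_nhds (s := Ioi (0:ℝ)))
      simpa using this
  refine le_of_tendsto_of_tendsto l1 l2 ?_
  filter_upwards [self_mem_nhdsWithin] with s hs
  exact h' s hs

theorem roc_transpose {W : Mt → ℝ} (h : ROC W) : ROC (fun F => W F.transpose) := by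
  intro F H hH t h0 h1
  have h2 := h F.transpose H.transpose (by rw [Matrix.rank_transpose]; exact hH) t h0 h1
  simpa using h2

/-- the base case, columns -/
theorem base_col (Φ : V2 → ℝ → ℝ) (Q : QuadraticForm ℝ Mt)
    (h : ROC (fun F => Φ (col F) F.det + Q F)) : Quasiconvex (fun F => Φ (col F) F.det + Q F) := by
  have hWc := roc_cont h
  have hgood : ∀ F₀ : Mt, col F₀ ≠ 0 → QcAt (fun F => Φ (col F) F.det + Q F) F₀ := by
    intro F₀ hF
    obtain ⟨ψ, σ, hψ, hle, heq⟩ := supp (W := fun F => Φ (col F) F.det + Q F) h (cont_Q Q)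
      (fun F => rfl) F₀ hF
    have hψ' : ROC (fun F => ψ (col F) + Q F) := hψ
    have h1 := roc_add_det hψ' σ
    have e : (fun F : Mt => ψ (col F) + Q F + σ * F.det)
        = fun F => ψ (F.mulVec (Pi.single 0 1)) + (Q + σ • dq) F := by
      funext F
      rw [Matrix.mulVec_single_one, _root_.add_apply, _root_.smul_apply, dq_apply,
        smul_eq_mul, add_assoc]
      rfl
    have hq : Quasiconvex (fun F : Mt => ψ (col F) + Q F + σ * F.det) := by
      rw [e] at h1 ⊢
      exact colClass _ _ _ h1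
    exact qcAt_of_support hWc (roc_cont h1) hq hle heq
  intro F₀
  by_cases hF : col F₀ = 0
  · refine qcAt_lim hWc F₀ 1 fun s hs => hgood _ ?_
    intro hc
    have h1 := congrFun hc 0
    have h2 : F₀ 0 0 = 0 := congrFun hF 0
    simp [col, h2] at h1
    exact hs.ne' h1
  · exact hgood F₀ hF

/-- the base case, rows -/
theorem base_row (Φ : V2 → ℝ → ℝ) (Q : QuadraticForm ℝ Mt)
    (h : ROC (fun F => Φ (F 0) F.det + Q F)) : Quasiconvex (fun F => Φ (F 0) F.det + Q F) := by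
  have hWc := roc_cont h
  have hT := roc_transpose h
  set Q' : QuadraticForm ℝ Mt := Q.comp (Matrix.transposeLinearEquiv (Fin 2) (Fin 2) ℝ ℝ).toLinearMap
    with hQ'
  have hQ'a : ∀ F : Mt, Q' F = Q F.transpose := fun F => rfl
  have eT : (fun F : Mt => (fun F : Mt => Φ (F 0) F.det + Q F) F.transpose)
      = fun F => Φ (col F) F.det + Q' F := by
    funext F
    simp only [hQ'a, det_transpose]
    rfl
  rw [eT] at hT
  have hgood : ∀ F₀ : Mt, F₀ 0 ≠ 0 → QcAt (fun F => Φ (F 0) F.det + Q F) F₀ := by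
    intro F₀ hF
    obtain ⟨ψ, σ, hψ, hle, heq⟩ := supp (W := fun F => Φ (col F) F.det + Q' F) hT (cont_Q Q')
      (fun F => rfl) F₀.transpose hF
    have hψ' : ROC (fun F => ψ (col F) + Q' F) := hψ
    have h1 := roc_transpose (roc_add_det hψ' σ)
    have e : (fun F : Mt => (fun F => ψ (col F) + Q' F + σ * F.det) F.transpose)
        = fun F => ψ (Matrix.vecMul (Pi.single 0 1) F) + (Q + σ • dq) F := by
      funext F
      rw [Matrix.single_one_vecMul, _root_.add_apply, _root_.smul_apply, dq_apply,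
        smul_eq_mul]
      simp only [hQ'a, det_transpose, transpose_transpose]
      rw [add_assoc]
      rfl
    have hq : Quasiconvex (fun F : Mt => (fun F => ψ (col F) + Q' F + σ * F.det) F.transpose) := by
      rw [e] at h1 ⊢
      exact rowClass _ _ _ h1
    refine qcAt_of_support hWc (roc_cont h1) hq (fun F => ?_) ?_
    · have := hle F.transpose
      simp only [hQ'a, det_transpose, transpose_transpose] at this ⊢
      exact this
    · simp only [hQ'a, det_transpose, transpose_transpose] at heq ⊢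
      exact heq
  intro F₀
  by_cases hF : F₀ 0 = 0
  · refine qcAt_lim hWc F₀ 1 fun s hs => hgood _ ?_
    intro hc
    have h1 := congrFun hc 0
    have h2 : F₀ 0 0 = 0 := congrFun hF 0
    simp [h2] at h1
    exact hs.ne' h1
  · exact hgood F₀ hF

/-- columns, any direction, plus a linear function -/
theorem main_col (Φ : V2 → ℝ → ℝ) (n : V2) (Q : QuadraticForm ℝ Mt) (L : Mt →ₗ[ℝ] ℝ)
    (h : ROC (fun F => Φ (F.mulVec n) F.det + Q F + L F)) :
    Quasiconvex (fun F => Φ (F.mulVec n) F.det + Q F + L F) := by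
  have h1 : ROC (fun F => Φ (F.mulVec n) F.det + Q F) := by
    have := roc_add_lin (-L) h
    have e : (fun F : Mt => (Φ (F.mulVec n) F.det + Q F + L F) + (-L) F)
        = fun F => Φ (F.mulVec n) F.det + Q F := by
      funext F; rw [LinearMap.neg_apply]; ring
    rw [e] at this
    exact this
  suffices hq : Quasiconvex (fun F => Φ (F.mulVec n) F.det + Q F) from
    qc_add hq (roc_cont h1) (qc_lin L) (cont_L L)
  by_cases hn : n = 0
  · subst hn
    have e : (fun F : Mt => Φ (F.mulVec 0) F.det + Q F)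
        = fun F => (fun _ δ => Φ 0 δ) (col F) F.det + Q F := by
      funext F; rw [Matrix.mulVec_zero]
    rw [e] at h1 ⊢
    exact base_col (fun _ δ => Φ 0 δ) Q h1
  · obtain ⟨R, hR, hRn⟩ := Pool.Agent.Q82.MD.exists_col n hn
    have hu : IsUnit R.det := isUnit_iff_ne_zero.2 hR
    have hRi : (R⁻¹).det ≠ 0 := Pool.Agent.Q82.MD.det_inv_ne hu
    have h2 := Pool.Agent.Q82.MD.roc_lc h1 R⁻¹ hRi
    refine Q144.MD.lc _ R⁻¹ hRi ?_
    have e : (fun F : Mt => Φ ((F * R⁻¹).mulVec n) (F * R⁻¹).det + Q (F * R⁻¹))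
        = fun F => (fun p δ => Φ p (δ * (R⁻¹).det)) (col F) F.det
          + (Q.comp (LinearMap.mulRight ℝ (R⁻¹) : Mt →ₗ[ℝ] _)) F := by
      funext F
      have e1 : (F * R⁻¹).mulVec n = col F := by
        have e2 : n = R.mulVec (Pi.single 0 1) := by
          ext i
          rw [Matrix.mulVec_single_one]
          exact (hRn i).symm
        rw [e2, Matrix.mulVec_mulVec, Matrix.mul_assoc, Matrix.nonsing_inv_mul _ hu, Matrix.mul_one,
          Matrix.mulVec_single_one]
        rfl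
      rw [e1, det_mul]
      rfl
    change Quasiconvex (fun F : Mt => Φ ((F * R⁻¹).mulVec n) (F * R⁻¹).det + Q (F * R⁻¹))
    change ROC (fun F : Mt => Φ ((F * R⁻¹).mulVec n) (F * R⁻¹).det + Q (F * R⁻¹)) at h2
    rw [e] at h2 ⊢
    exact base_col (fun p δ => Φ p (δ * (R⁻¹).det)) _ h2

/-- rows, any direction, plus a linear function -/
theorem main_row (Φ : V2 → ℝ → ℝ) (m : V2) (Q : QuadraticForm ℝ Mt) (L : Mt →ₗ[ℝ] ℝ)
    (h : ROC (fun F => Φ (Matrix.vecMul m F) F.det + Q F + L F)) :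
    Quasiconvex (fun F => Φ (Matrix.vecMul m F) F.det + Q F + L F) := by
  have h1 : ROC (fun F => Φ (Matrix.vecMul m F) F.det + Q F) := by
    have := roc_add_lin (-L) h
    have e : (fun F : Mt => (Φ (Matrix.vecMul m F) F.det + Q F + L F) + (-L) F)
        = fun F => Φ (Matrix.vecMul m F) F.det + Q F := by
      funext F; rw [LinearMap.neg_apply]; ring
    rw [e] at this
    exact this
  suffices hq : Quasiconvex (fun F => Φ (Matrix.vecMul m F) F.det + Q F) from
    qc_add hq (roc_cont h1) (qc_lin L) (cont_L L)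
  by_cases hm : m = 0
  · subst hm
    have e : (fun F : Mt => Φ (Matrix.vecMul 0 F) F.det + Q F)
        = fun F => (fun _ δ => Φ 0 δ) (F 0) F.det + Q F := by
      funext F; rw [Matrix.zero_vecMul]
    rw [e] at h1 ⊢
    exact base_row (fun _ δ => Φ 0 δ) Q h1
  · obtain ⟨R0, hR0, hRn0⟩ := Pool.Agent.Q82.MD.exists_col m hm
    set R := R0.transpose with hRdef
    have hR : R.det ≠ 0 := by rw [hRdef, Matrix.det_transpose]; exact hR0
    have hRn : ∀ i, R 0 i = m i := fun i => hRn0 i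
    have hu : IsUnit R.det := isUnit_iff_ne_zero.2 hR
    have hRi : (R⁻¹).det ≠ 0 := Pool.Agent.Q82.MD.det_inv_ne hu
    have h2 := Pool.Agent.Q82.MD.roc_tc h1 R⁻¹ hRi
    refine Q144.MD.tc _ R⁻¹ hRi ?_
    have e : (fun F : Mt => Φ (Matrix.vecMul m (R⁻¹ * F)) (R⁻¹ * F).det + Q (R⁻¹ * F))
        = fun F => (fun p δ => Φ p ((R⁻¹).det * δ)) (F 0) F.det
          + (Q.comp (LinearMap.mulLeft ℝ (R⁻¹) : Mt →ₗ[ℝ] _)) F := by
      funext F
      have e1 : Matrix.vecMul m (R⁻¹ * F) = F 0 := by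
        have e2 : m = Matrix.vecMul (Pi.single 0 1) R := by
          ext i
          rw [Matrix.single_one_vecMul]
          exact (hRn i).symm
        rw [e2, Matrix.vecMul_vecMul, ← Matrix.mul_assoc, Matrix.mul_nonsing_inv _ hu,
          Matrix.one_mul, Matrix.single_one_vecMul]
        rfl
      rw [e1, det_mul]
      rfl
    change Quasiconvex (fun F : Mt => Φ (Matrix.vecMul m (R⁻¹ * F)) (R⁻¹ * F).det + Q (R⁻¹ * F))
    change ROC (fun F : Mt => Φ (Matrix.vecMul m (R⁻¹ * F)) (R⁻¹ * F).det + Q (R⁻¹ * F)) at h2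
    rw [e] at h2 ⊢
    exact base_row (fun p δ => Φ p ((R⁻¹).det * δ)) _ h2

end Pool.Agent.H73.MC
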