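import Mathlib

/-!
Convexity of functions of one variable from second differences.
-/

set_option autoImplicit false

namespace Pool.Agent.H73.MC

open Set Filter Topology

/-- a continuous function which is not convex has a point with negative second differences at all
small scales -/
theorem nonconvex {f : ℝ → ℝ} (hf : Continuous f) (hn : ¬ ConvexOn ℝ univ f) :
    ∃ x h₀ : ℝ, 0 < h₀ ∧ ∀ h, 0 < h → h < h₀ → f (x + h) + f (x - h) - 2 * f x < 0 := by
  have h1 : ∃ a b s : ℝ, a < b ∧ 0 < s ∧ s < 1 ∧
      (1 - s) * f a + s * f b < f ((1 - s) * a + s * b) := by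
    by_contra hcon
    push Not at hcon
    apply hn
    refine ⟨convex_univ, ?_⟩
    intro x _ y _ a b ha hb hab
    simp only [smul_eq_mul]
    rcases ha.eq_or_lt with rfl | ha
    · have : b = 1 := by linarith
      subst this; simp
    rcases hb.eq_or_lt with rfl | hb
    · have : a = 1 := by linarith
      subst this; simp
    rcases lt_trichotomy x y with h | h | h
    · have := hcon x y b h hb (by linarith)
      have e : a = 1 - b := by linarith
      rw [e]; exact this
    · subst h
      have e : a * x + b * x = x := by rw [← add_mul, hab, one_mul]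
      rw [e, ← add_mul, hab, one_mul]
    · have := hcon y x a h ha (by linarith)
      have e : b = 1 - a := by linarith
      rw [e]
      have e3 : a * x + (1 - a) * y = (1 - a) * y + a * x := by ring
      rw [e3]
      linarith
  obtain ⟨a, b, s, hab, hs0, hs1, hlt⟩ := h1
  have hba : (0:ℝ) < b - a := by linarith
  set φ : ℝ → ℝ := fun z => f z - (f a + (z - a) / (b - a) * (f b - f a)) with hφ
  have hφc : Continuous φ := by fun_prop
  have hφa : φ a = 0 := by simp [hφ]
  have hφb : φ b = 0 := by simp only [hφ]; field_simp; ring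
  set c := (1 - s) * a + s * b with hc
  have hφcpos : 0 < φ c := by
    have e : (c - a) / (b - a) = s := by rw [hc]; field_simp; ring
    simp only [hφ]
    rw [e]
    linarith
  have hcab : c ∈ Icc a b := ⟨by rw [hc]; nlinarith, by rw [hc]; nlinarith⟩
  obtain ⟨x₁, hx₁, hmax⟩ := isCompact_Icc.exists_isMaxOn ⟨c, hcab⟩ hφc.continuousOn
  have hM : 0 < φ x₁ := hφcpos.trans_le (hmax hcab)
  -- the leftmost maximum point
  have hS : IsCompact (Icc a b ∩ φ ⁻¹' {φ x₁}) :=
    isCompact_Icc.inter_right (isClosed_singleton.preimage hφc)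
  obtain ⟨x, ⟨hx, hxM⟩, hleast⟩ := hS.exists_isLeast ⟨x₁, hx₁, rfl⟩
  have hxM' : φ x = φ x₁ := hxM
  have hxa : a < x := by
    rcases hx.1.eq_or_lt with h | h
    · rw [← h, hφa] at hxM'; linarith
    · exact h
  have hxb : x < b := by
    rcases hx.2.eq_or_lt with h | h
    · rw [h, hφb] at hxM'; linarith
    · exact h
  refine ⟨x, min (x - a) (b - x), lt_min (by linarith) (by linarith), fun h h0 hh => ?_⟩
  have hha : h < x - a := hh.trans_le (min_le_left _ _)
  have hhb : h < b - x := hh.trans_le (min_le_right _ _)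
  have k1 : φ (x + h) ≤ φ x₁ := hmax ⟨by linarith, by linarith⟩
  have k2 : φ (x - h) < φ x₁ := by
    have hm : x - h ∈ Icc a b := ⟨by linarith, by linarith⟩
    refine lt_of_le_of_ne (hmax hm) fun he => ?_
    have := hleast ⟨hm, he⟩
    linarith
  have e : f (x + h) + f (x - h) - 2 * f x = φ (x + h) + φ (x - h) - 2 * φ x := by
    simp only [hφ]
    field_simp
    ring
  rw [e, hxM']
  linarith

/-- convexity from nonnegative second differences at small scales -/
theorem convex_of_local {f : ℝ → ℝ} (hf : Continuous f) (h₀ : ℝ) (hh : 0 < h₀)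
    (h : ∀ x h, 0 < h → h < h₀ → 0 ≤ f (x + h) + f (x - h) - 2 * f x) : ConvexOn ℝ univ f := by
  by_contra hn
  obtain ⟨x, h₁, hh₁, hx⟩ := nonconvex hf hn
  have h2 : 0 < min h₀ h₁ / 2 := by positivity
  have h3 : min h₀ h₁ / 2 < h₀ := by
    have := min_le_left h₀ h₁
    linarith
  have h4 : min h₀ h₁ / 2 < h₁ := by
    have := min_le_right h₀ h₁
    linarith
  have := h x _ h2 h3
  have := hx _ h2 h4
  linarith

/-- the two cases for the parameter `t` -/
theorem alt {g : ℝ → ℝ} (hg : Continuous g) (t : ℝ)
    (hn : ¬ ConvexOn ℝ univ (fun x => g x - t / 2 * x ^ 2)) :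
    ∃ x h₀ : ℝ, 0 < h₀ ∧ ∀ h, |h| < h₀ → g (x + h) + g (x - h) - 2 * g x ≤ t * h ^ 2 := by
  obtain ⟨x, h₀, hh₀, hx⟩ := nonconvex (f := fun x => g x - t / 2 * x ^ 2) (by fun_prop) hn
  refine ⟨x, h₀, hh₀, fun h hh => ?_⟩
  rcases lt_trichotomy h 0 with h1 | h1 | h1
  · have := hx (-h) (by linarith) (by rw [abs_of_neg h1] at hh; exact hh)
    have e1 : x + -h = x - h := by ring
    have e2 : x - -h = x + h := by ring
    rw [e1, e2] at this
    nlinarith
  · subst h1; simp; linarith
  · have := hx h h1 (by rw [abs_of_pos h1] at hh; exact hh)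
    nlinarith

theorem lim_right {A B m : ℝ} (h : ∀ t, m < t → A + t * B ≤ 0) : A + m * B ≤ 0 := by
  by_contra hc
  push Not at hc
  rcases le_or_gt 0 B with hB | hB
  · have := h (m + 1) (by linarith)
    nlinarith
  · have hB' : 0 < -2 * B := by linarith
    have hB0 : B ≠ 0 := hB.ne
    have := h (m + (A + m * B) / (-2 * B)) (by have := div_pos hc hB'; linarith)
    have e : A + (m + (A + m * B) / (-2 * B)) * B = (A + m * B) / 2 := by
      field_simp; ring
    rw [e] at this
    linarith

theorem lim_left {A B m : ℝ} (h : ∀ t, t < m → A + t * B ≤ 0) : A + m * B ≤ 0 := by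
  have := lim_right (A := A) (B := -B) (m := -m) (fun t ht => by
    have := h (-t) (by linarith)
    nlinarith)
  nlinarith

end Pool.Agent.H73.MC
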