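import Pool.Agent.H73.MC.Peel1
import Pool.Agent.H73.MC.Fin

/-!
Splitting off functions of one linear form from a rank-one convex function.
-/

set_option autoImplicit false

namespace Pool.Agent.H73.MC

open Matrix Set Filter Topology MeasureTheory
open Pool.Agent.Q82.MD (Quasiconvex)

theorem roc_line {W : Mt → ℝ} (h : ROC W) (F H : Mt) (hd : H.det = 0) :
    ConvexOn ℝ univ (fun t : ℝ => W (F + t • H)) :=
  Pool.Agent.Helper188.Morrey.RankOneConvex.line h F H hd

theorem roc_of_line {W : Mt → ℝ}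
    (h : ∀ F H : Mt, H.det = 0 → ConvexOn ℝ univ (fun t : ℝ => W (F + t • H))) : ROC W := by
  intro F H hH t h0 h1
  have hd : H.det = 0 := Pool.Agent.Helper188.Morrey.det_eq_zero_of_rank hH.le
  have h2 := (h F H hd).2 (mem_univ 0) (mem_univ 1) (by linarith : 0 ≤ 1 - t) h0 (by ring)
  simp only [smul_eq_mul, mul_zero, mul_one, zero_add, zero_smul, one_smul, add_zero] at h2
  rw [seg_eq]
  exact h2

theorem roc_mid {W : Mt → ℝ} (h : ROC W) (F H : Mt) (hd : H.det = 0) :
    0 ≤ W (F + H) + W (F - H) - 2 * W F := by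
  have h2 := (roc_line h F H hd).2 (mem_univ 1) (mem_univ (-1))
    (by norm_num : (0:ℝ) ≤ 1 / 2) (by norm_num : (0:ℝ) ≤ 1 / 2) (by norm_num)
  simp only [smul_eq_mul, one_smul, neg_smul] at h2
  have e : (1 / 2 * 1 + 1 / 2 * -1 : ℝ) = 0 := by norm_num
  rw [e, zero_smul, add_zero, ← sub_eq_add_neg] at h2
  linarith

theorem exists_rank_one (ℓ : Mt →ₗ[ℝ] ℝ) (Z : Mt) (hZ : ℓ Z = 1) : ∃ H : Mt, H.det = 0 ∧ ℓ H ≠ 0 := by
  by_contra hc
  push Not at hc
  have h1 : Z = Z 0 0 • Matrix.single 0 0 1 + Z 0 1 • Matrix.single 0 1 1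
      + Z 1 0 • Matrix.single 1 0 1 + Z 1 1 • Matrix.single 1 1 1 := by
    ext i j
    fin_cases i <;> fin_cases j <;> simp
  have h00 := hc (Matrix.single 0 0 1) (by simp [det_fin_two])
  have h01 := hc (Matrix.single 0 1 1) (by simp [det_fin_two])
  have h10 := hc (Matrix.single 1 0 1) (by simp [det_fin_two])
  have h11 := hc (Matrix.single 1 1 1) (by simp [det_fin_two])
  rw [h1] at hZ
  simp only [map_add, map_smul, h00, h01, h10, h11, smul_zero, add_zero] at hZ
  exact zero_ne_one hZ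

theorem peel {U : Mt → ℝ} {g : ℝ → ℝ} (ℓ : Mt →ₗ[ℝ] ℝ) (Z : Mt) (hZ : ℓ Z = 1)
    (hUc : Continuous U) (hgc : Continuous g)
    (hU : ∀ (F H : Mt) (x : ℝ), U (F + x • Z + H) + U (F + x • Z - H) - 2 * U (F + x • Z)
      = U (F + H) + U (F - H) - 2 * U F)
    (hW : ROC (fun F => U F + g (ℓ F))) :
    ∃ m : ℝ, ROC (fun F => U F + m / 2 * (ℓ F) ^ 2) ∧
      ConvexOn ℝ univ (fun x => g x - m / 2 * x ^ 2) := by
  have hℓc : Continuous (fun F : Mt => ℓ F) := cont_L ℓ
  -- outside of `T`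
  have hout : ∀ t : ℝ, ¬ ConvexOn ℝ univ (fun x => g x - t / 2 * x ^ 2) →
      ROC (fun F => U F + t / 2 * (ℓ F) ^ 2) := by
    intro t ht
    obtain ⟨x, h₀, hh₀, hx⟩ := alt hgc t ht
    refine roc_of_line fun F H hd => ?_
    by_cases hla : ℓ H = 0
    · have h1 := roc_line hW F H hd
      have e : (fun s : ℝ => U (F + s • H) + t / 2 * (ℓ (F + s • H)) ^ 2)
          = fun s : ℝ => (U (F + s • H) + g (ℓ (F + s • H)))
            + (t / 2 * (ℓ F) ^ 2 - g (ℓ F)) := by
        funext s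
        have : ℓ (F + s • H) = ℓ F := by
          rw [map_add, map_smul, hla, smul_zero, add_zero]
        rw [this]; ring
      rw [e]
      exact h1.add (convexOn_const _ convex_univ)
    · have hla' : 0 < |ℓ H| := abs_pos.2 hla
      refine convex_of_local (by fun_prop) (h₀ / |ℓ H|) (div_pos hh₀ hla') fun s h hh hhs => ?_
      rw [lt_div_iff₀ hla'] at hhs
      set F' := F + s • H with hF'
      have e1 : F + (s + h) • H = F' + h • H := by rw [hF', add_smul, add_assoc]
      have e2 : F + (s - h) • H = F' - h • H := by rw [hF', sub_smul]; abel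
      rw [e1, e2]
      have hd2 : (h • H).det = 0 := Pool.Agent.Helper188.Morrey.det_smul_zero hd h
      have hm := roc_mid hW (F' + (x - ℓ F') • Z) (h • H) hd2
      have hu := hU F' (h • H) (x - ℓ F')
      have l0 : ℓ (F' + (x - ℓ F') • Z) = x := by
        rw [map_add, map_smul, hZ, smul_eq_mul]; ring
      have l1 : ℓ (F' + (x - ℓ F') • Z + h • H) = x + h * ℓ H := by
        rw [map_add, l0, map_smul, smul_eq_mul]
      have l2 : ℓ (F' + (x - ℓ F') • Z - h • H) = x - h * ℓ H := by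
        rw [map_sub, l0, map_smul, smul_eq_mul]
      have l3 : ℓ (F' + h • H) = ℓ F' + h * ℓ H := by
        rw [map_add, map_smul, smul_eq_mul]
      have l4 : ℓ (F' - h • H) = ℓ F' - h * ℓ H := by
        rw [map_sub, map_smul, smul_eq_mul]
      have hg := hx (h * ℓ H) (by rw [abs_mul, abs_of_pos hh]; exact hhs)
      simp only [l0, l1, l2] at hm
      rw [l3, l4]
      nlinarith
  obtain ⟨H₁, hH₁, hℓH₁⟩ := exists_rank_one ℓ Z hZ
  have hsq : 0 < (ℓ H₁) ^ 2 := by positivity
  set T : Set ℝ := {t | ConvexOn ℝ univ (fun x => g x - t / 2 * x ^ 2)} with hT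
  have hTne : T.Nonempty := by
    by_contra hne
    rw [Set.not_nonempty_iff_eq_empty] at hne
    set t₀ := (-(U (0 + H₁) + U (0 - H₁) - 2 * U 0) - 1) / (ℓ H₁) ^ 2 with ht₀
    have h1 : t₀ ∉ T := by rw [hne]; exact fun h => h
    have h2 := roc_mid (hout t₀ h1) 0 H₁ hH₁
    simp only [map_zero, zero_add, zero_sub] at h2
    rw [map_neg] at h2
    have h3 : t₀ * (ℓ H₁) ^ 2 = -(U (0 + H₁) + U (0 - H₁) - 2 * U 0) - 1 := by
      rw [ht₀]; field_simp
    simp only [zero_add, zero_sub] at h3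
    linarith
  have hTdown : ∀ t ∈ T, ∀ s, s ≤ t → s ∈ T := by
    intro t ht s hs
    have e : (fun x : ℝ => g x - s / 2 * x ^ 2)
        = fun x => (g x - t / 2 * x ^ 2) + (t - s) / 2 * x ^ 2 := by
      funext x; ring
    show ConvexOn ℝ univ (fun x => g x - s / 2 * x ^ 2)
    rw [e]
    have h2 : ConvexOn ℝ univ (fun x : ℝ => (t - s) / 2 * x ^ 2) := by
      have h3 : ConvexOn ℝ univ (fun x : ℝ => x ^ 2) := Even.convexOn_pow (by norm_num)
      have := h3.smul (by linarith : 0 ≤ (t - s) / 2)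
      simpa [smul_eq_mul] using this
    have ht' : ConvexOn ℝ univ (fun x => g x - t / 2 * x ^ 2) := ht
    exact ht'.add h2
  have hTb : BddAbove T := by
    refine ⟨g 1 + g (-1) - 2 * g 0, fun t ht => ?_⟩
    have h2 := ht.2 (mem_univ 1) (mem_univ (-1))
      (by norm_num : (0:ℝ) ≤ 1 / 2) (by norm_num : (0:ℝ) ≤ 1 / 2) (by norm_num)
    simp only [smul_eq_mul] at h2
    have e : (1 / 2 * 1 + 1 / 2 * -1 : ℝ) = 0 := by norm_num
    rw [e] at h2
    linarith
  set m := sSup T with hm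
  have hlt : ∀ t, t < m → ConvexOn ℝ univ (fun x => g x - t / 2 * x ^ 2) := by
    intro t ht
    obtain ⟨s, hs, hts⟩ := exists_lt_of_lt_csSup hTne ht
    exact hTdown s hs t hts.le
  have hgt : ∀ t, m < t → ROC (fun F => U F + t / 2 * (ℓ F) ^ 2) := by
    intro t ht
    exact hout t fun h => absurd (le_csSup hTb h) (not_le.2 ht)
  refine ⟨m, ?_, ?_⟩
  · intro F H hH t h0 h1
    have h2 := lim_right
      (A := U ((1 - t) • F + t • (F + H)) - (1 - t) * U F - t * U (F + H))
      (B := 1 / 2 * ((ℓ ((1 - t) • F + t • (F + H))) ^ 2 - (1 - t) * (ℓ F) ^ 2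
        - t * (ℓ (F + H)) ^ 2)) (m := m) (fun c hc => by
          have := hgt c hc F H hH t h0 h1
          simp only at this
          nlinarith)
    simp only
    nlinarith
  · refine ⟨convex_univ, fun x _ y _ a b ha hb hab => ?_⟩
    have h2 := lim_left
      (A := g (a * x + b * y) - a * g x - b * g y)
      (B := -(1 / 2) * ((a * x + b * y) ^ 2 - a * x ^ 2 - b * y ^ 2)) (m := m) (fun c hc => by
          have := (hlt c hc).2 (mem_univ x) (mem_univ y) ha hb hab
          simp only [smul_eq_mul] at this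
          nlinarith)
    simp only [smul_eq_mul]
    nlinarith

end Pool.Agent.H73.MC
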