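import Pool.Agent.H73.MC.Peel2

/-!
Rank-one convex functions `ψ(T F) + ∑ gᵢ(ℓᵢ F) + Q(F) + L(F)`, `ℓᵢ` independent on `ker T`.
-/

set_option autoImplicit false

namespace Pool.Agent.H73.MC

open Matrix Set Filter Topology MeasureTheory
open Pool.Agent.Q82.MD (Quasiconvex)

theorem Q_second (Q : QuadraticForm ℝ Mt) (F H : Mt) :
    Q (F + H) + Q (F - H) - 2 * Q F = 2 * Q H := by
  have h1 := QuadraticMap.map_add Q F H
  have h2 := QuadraticMap.map_add Q F (-H)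
  rw [QuadraticMap.polar_neg_right, QuadraticMap.map_neg, ← sub_eq_add_neg] at h2
  rw [h1, h2]
  ring

variable {ι : Type} [Fintype ι] [DecidableEq ι]

theorem peel_step (T : Mt →ₗ[ℝ] V2) (ℓ : ι → Mt →ₗ[ℝ] ℝ) (Z : ι → Mt) (hZT : ∀ i, T (Z i) = 0)
    (hZ1 : ∀ i, ℓ i (Z i) = 1) (hZ0 : ∀ i j, j ≠ i → ℓ j (Z i) = 0) (ψ : V2 → ℝ)
    (Q : QuadraticForm ℝ Mt) (hψ : Continuous (fun F : Mt => ψ (T F))) (G : ι → ℝ → ℝ)
    (hG : ∀ i, Continuous (G i))
    (hW : ROC (fun F => ψ (T F) + ∑ i, G i (ℓ i F) + Q F)) (k : ι) :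
    ∃ c : ℝ, ROC (fun F => ψ (T F) + ∑ i, Function.update G k (fun x => c / 2 * x ^ 2) i (ℓ i F)
      + Q F) ∧ ConvexOn ℝ univ (fun x => G k x - c / 2 * x ^ 2) := by
  have hsplit : ∀ (G' : ι → ℝ → ℝ) (F : Mt), ∑ i, G' i (ℓ i F)
      = ∑ i ∈ Finset.univ.erase k, G' i (ℓ i F) + G' k (ℓ k F) := fun G' F =>
    (Finset.sum_erase_add Finset.univ (fun i => G' i (ℓ i F)) (Finset.mem_univ k)).symm
  have hW2 : ROC (fun F => (ψ (T F) + ∑ i ∈ Finset.univ.erase k, G i (ℓ i F) + Q F)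
      + G k (ℓ k F)) := by
    have e : (fun F : Mt => ψ (T F) + ∑ i, G i (ℓ i F) + Q F)
        = fun F => (ψ (T F) + ∑ i ∈ Finset.univ.erase k, G i (ℓ i F) + Q F) + G k (ℓ k F) := by
      funext F; rw [hsplit]; ring
    rw [e] at hW
    exact hW
  obtain ⟨c, hc1, hc2⟩ := peel (ℓ k) (Z k) (hZ1 k)
    (U := fun F => ψ (T F) + ∑ i ∈ Finset.univ.erase k, G i (ℓ i F) + Q F)
    (by
      refine (hψ.add (continuous_finsetSum _ fun i _ => (hG i).comp (cont_L (ℓ i)))).add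
        (cont_Q Q)) (hG k)
    (by
      intro F H x
      have t0 : ∀ F' : Mt, T (F' + x • Z k) = T F' := fun F' => by
        rw [map_add, map_smul, hZT, smul_zero, add_zero]
      have t1 : ∀ i, i ≠ k → ∀ F' : Mt, ℓ i (F' + x • Z k) = ℓ i F' := fun i hi F' => by
        rw [map_add, map_smul, hZ0 k i hi, smul_zero, add_zero]
      have s1 : ∀ F' : Mt, ∑ i ∈ Finset.univ.erase k, G i (ℓ i (F' + x • Z k))
          = ∑ i ∈ Finset.univ.erase k, G i (ℓ i F') := fun F' => by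
        refine Finset.sum_congr rfl fun i hi => ?_
        rw [t1 i (Finset.ne_of_mem_erase hi)]
      have a1 : F + x • Z k + H = (F + H) + x • Z k := by abel
      have a2 : F + x • Z k - H = (F - H) + x • Z k := by abel
      have q1 := Q_second Q (F + x • Z k) H
      have q2 := Q_second Q F H
      rw [a1, a2] at q1
      rw [a1, a2, t0, t0, t0, s1, s1, s1]
      linarith) hW2
  refine ⟨c, ?_, hc2⟩
  have e : (fun F : Mt => ψ (T F) + ∑ i, Function.update G k (fun x => c / 2 * x ^ 2) i (ℓ i F)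
      + Q F) = fun F => (ψ (T F) + ∑ i ∈ Finset.univ.erase k, G i (ℓ i F) + Q F)
        + c / 2 * (ℓ k F) ^ 2 := by
    funext F
    rw [hsplit (Function.update G k (fun x => c / 2 * x ^ 2)) F]
    have s1 : ∑ i ∈ Finset.univ.erase k, Function.update G k (fun x => c / 2 * x ^ 2) i (ℓ i F)
        = ∑ i ∈ Finset.univ.erase k, G i (ℓ i F) := by
      refine Finset.sum_congr rfl fun i hi => ?_
      rw [Function.update_of_ne (Finset.ne_of_mem_erase hi)]
    rw [s1, Function.update_self]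
    ring
  rw [e]
  exact hc1

theorem peel_all (T : Mt →ₗ[ℝ] V2) (ℓ : ι → Mt →ₗ[ℝ] ℝ) (Z : ι → Mt) (hZT : ∀ i, T (Z i) = 0)
    (hZ1 : ∀ i, ℓ i (Z i) = 1) (hZ0 : ∀ i j, j ≠ i → ℓ j (Z i) = 0) (ψ : V2 → ℝ)
    (Q : QuadraticForm ℝ Mt) (hψ : Continuous (fun F : Mt => ψ (T F))) (g : ι → ℝ → ℝ)
    (hg : ∀ i, Continuous (g i))
    (hW : ROC (fun F => ψ (T F) + ∑ i, g i (ℓ i F) + Q F)) :
    ∃ c : ι → ℝ, ROC (fun F => ψ (T F) + ∑ i, c i / 2 * (ℓ i F) ^ 2 + Q F) ∧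
      ∀ i, ConvexOn ℝ univ (fun x => g i x - c i / 2 * x ^ 2) := by
  have key : ∀ s : Finset ι, ∃ G : ι → ℝ → ℝ, (∀ i, Continuous (G i)) ∧
      ROC (fun F => ψ (T F) + ∑ i, G i (ℓ i F) + Q F) ∧
      (∀ i ∈ s, ∃ c : ℝ, G i = (fun x => c / 2 * x ^ 2) ∧
        ConvexOn ℝ univ (fun x => g i x - c / 2 * x ^ 2)) ∧ (∀ i, i ∉ s → G i = g i) := by
    intro s
    induction s using Finset.induction_on with
    | empty => exact ⟨g, hg, hW, fun i hi => absurd hi (Finset.notMem_empty i), fun i _ => rfl⟩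
    | insert k s hk ih =>
      obtain ⟨G, hG1, hG2, hG3, hG4⟩ := ih
      obtain ⟨c, hc1, hc2⟩ := peel_step T ℓ Z hZT hZ1 hZ0 ψ Q hψ G hG1 hG2 k
      rw [hG4 k hk] at hc2
      refine ⟨Function.update G k (fun x => c / 2 * x ^ 2), fun i => ?_, hc1, fun i hi => ?_,
        fun i hi => ?_⟩
      · by_cases h : i = k
        · subst h
          rw [Function.update_self]
          fun_prop
        · rw [Function.update_of_ne h]
          exact hG1 i
      · by_cases h : i = k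
        · subst h
          exact ⟨c, Function.update_self .., hc2⟩
        · rw [Function.update_of_ne h]
          exact hG3 i ((Finset.mem_insert.1 hi).resolve_left h)
      · have h : i ≠ k := fun h => hi (h ▸ Finset.mem_insert_self _ _)
        rw [Function.update_of_ne h]
        exact hG4 i fun h' => hi (Finset.mem_insert_of_mem h')
  obtain ⟨G, _, hG2, hG3, _⟩ := key Finset.univ
  choose c hc1 hc2 using fun i => hG3 i (Finset.mem_univ i)
  refine ⟨c, ?_, hc2⟩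
  have e : (fun F : Mt => ψ (T F) + ∑ i, G i (ℓ i F) + Q F)
      = fun F => ψ (T F) + ∑ i, c i / 2 * (ℓ i F) ^ 2 + Q F := by
    funext F
    have : ∑ i, G i (ℓ i F) = ∑ i, c i / 2 * (ℓ i F) ^ 2 :=
      Finset.sum_congr rfl fun i _ => by rw [hc1 i]
    rw [this]
  rw [e] at hG2
  exact hG2

theorem peelMain (T : Mt →ₗ[ℝ] V2)
    (hT : ∀ (ψ : V2 → ℝ) (Q : QuadraticForm ℝ Mt), ROC (fun F => ψ (T F) + Q F) →
      Quasiconvex (fun F => ψ (T F) + Q F))
    (ℓ : ι → Mt →ₗ[ℝ] ℝ) (Z : ι → Mt) (hZT : ∀ i, T (Z i) = 0)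
    (hZ1 : ∀ i, ℓ i (Z i) = 1) (hZ0 : ∀ i j, j ≠ i → ℓ j (Z i) = 0) (ψ : V2 → ℝ)
    (g : ι → ℝ → ℝ) (Q : QuadraticForm ℝ Mt) (L : Mt →ₗ[ℝ] ℝ)
    (h : ROC (fun F => ψ (T F) + ∑ i, g i (ℓ i F) + Q F + L F)) :
    Quasiconvex (fun F => ψ (T F) + ∑ i, g i (ℓ i F) + Q F + L F) := by
  have h1 : ROC (fun F => ψ (T F) + ∑ i, g i (ℓ i F) + Q F) := by
    have := roc_add_lin (-L) h
    have e : (fun F : Mt => (ψ (T F) + ∑ i, g i (ℓ i F) + Q F + L F) + (-L) F)
        = fun F => ψ (T F) + ∑ i, g i (ℓ i F) + Q F := by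
      funext F; rw [LinearMap.neg_apply]; ring
    rw [e] at this
    exact this
  have hWc := roc_cont h1
  have hψc : Continuous (fun F : Mt => ψ (T F)) := by
    have hπ : Continuous (fun F : Mt => F - ∑ i, ℓ i F • Z i) :=
      continuous_id.sub (continuous_finsetSum _ fun i _ => (cont_L (ℓ i)).smul continuous_const)
    have hTπ : ∀ F : Mt, T (F - ∑ i, ℓ i F • Z i) = T F := by
      intro F
      rw [map_sub, map_sum]
      have : ∑ i, T (ℓ i F • Z i) = 0 := Finset.sum_eq_zero fun i _ => by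
        rw [map_smul, hZT, smul_zero]
      rw [this, sub_zero]
    have hℓπ : ∀ j, ∀ F : Mt, ℓ j (F - ∑ i, ℓ i F • Z i) = 0 := by
      intro j F
      rw [map_sub, map_sum]
      have : ∑ i, ℓ j (ℓ i F • Z i) = ℓ j F := by
        rw [Finset.sum_eq_single j]
        · rw [map_smul, hZ1, smul_eq_mul, mul_one]
        · intro i _ hi
          rw [map_smul, hZ0 i j (Ne.symm hi), smul_zero]
        · intro hj; exact absurd (Finset.mem_univ j) hj
      rw [this, sub_self]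
    have e : (fun F : Mt => ψ (T F)) = fun F =>
        ((fun F => ψ (T F) + ∑ i, g i (ℓ i F) + Q F) (F - ∑ i, ℓ i F • Z i))
          - ∑ i, g i 0 - Q (F - ∑ i, ℓ i F • Z i) := by
      funext F
      simp only [hTπ, hℓπ]
      ring
    rw [e]
    exact ((hWc.comp hπ).sub continuous_const).sub ((cont_Q Q).comp hπ)
  have hgc : ∀ i, Continuous (g i) := by
    intro k
    have hπ : Continuous (fun x : ℝ => x • Z k) := by fun_prop
    have e : g k = fun x =>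
        ((fun F => ψ (T F) + ∑ i, g i (ℓ i F) + Q F) (x • Z k))
          - ψ 0 - ∑ i ∈ Finset.univ.erase k, g i 0 - Q (x • Z k) := by
      funext x
      simp only
      rw [map_smul, hZT, smul_zero,
        ← Finset.sum_erase_add Finset.univ (fun i => g i (ℓ i (x • Z k))) (Finset.mem_univ k)]
      have s1 : ∑ i ∈ Finset.univ.erase k, g i (ℓ i (x • Z k))
          = ∑ i ∈ Finset.univ.erase k, g i 0 := by
        refine Finset.sum_congr rfl fun i hi => ?_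
        rw [map_smul, hZ0 k i (Finset.ne_of_mem_erase hi), smul_zero]
      have s2 : ℓ k (x • Z k) = x := by rw [map_smul, hZ1, smul_eq_mul, mul_one]
      rw [s1, s2]
      ring
    rw [e]
    exact (((hWc.comp hπ).sub continuous_const).sub continuous_const).sub ((cont_Q Q).comp hπ)
  obtain ⟨c, hc1, hc2⟩ := peel_all T ℓ Z hZT hZ1 hZ0 ψ Q hψc g hgc h1
  -- the supporting function
  set Q₁ : QuadraticForm ℝ Mt := Q + ∑ i, (c i / 2) • QuadraticMap.linMulLin (ℓ i) (ℓ i) with hQ₁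
  have hQ₁a : ∀ F : Mt, Q₁ F = Q F + ∑ i, c i / 2 * (ℓ i F) ^ 2 := by
    intro F
    rw [hQ₁, _root_.add_apply, _root_.sum_apply]
    congr 1
    refine Finset.sum_congr rfl fun i _ => ?_
    rw [_root_.smul_apply, QuadraticMap.linMulLin_apply, smul_eq_mul]
    ring
  intro F₀
  have hsup : ∀ i, ∃ σ : ℝ, ∀ d, (g i (ℓ i F₀) - c i / 2 * (ℓ i F₀) ^ 2) + σ * (d - ℓ i F₀)
      ≤ g i d - c i / 2 * d ^ 2 := fun i =>
    exists_support (fun x => g i x - c i / 2 * x ^ 2) (fun a b t h0 h1 => by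
      have := (hc2 i).2 (mem_univ a) (mem_univ b) (by linarith : 0 ≤ 1 - t) h0 (by ring)
      simpa only [smul_eq_mul] using this) (ℓ i F₀)
  choose σ hσ using hsup
  set κ : ℝ := ∑ i, ((g i (ℓ i F₀) - c i / 2 * (ℓ i F₀) ^ 2) - σ i * ℓ i F₀) with hκ
  set L₁ : Mt →ₗ[ℝ] ℝ := L + ∑ i, σ i • ℓ i with hL₁
  have hL₁a : ∀ F : Mt, L₁ F = L F + ∑ i, σ i * ℓ i F := by
    intro F
    rw [hL₁, LinearMap.add_apply, LinearMap.sum_apply]
    rfl
  have hr : ROC (fun F => (fun p => ψ p + κ) (T F) + Q₁ F) := by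
    intro F H hH t h0 h1
    have := hc1 F H hH t h0 h1
    simp only [hQ₁a] at this ⊢
    nlinarith
  have hq := hT (fun p => ψ p + κ) Q₁ hr
  have hV : Quasiconvex (fun F => ((fun p => ψ p + κ) (T F) + Q₁ F) + L₁ F) :=
    qc_add hq (roc_cont hr) (qc_lin L₁) (cont_L L₁)
  have hVc : Continuous (fun F : Mt => ((fun p => ψ p + κ) (T F) + Q₁ F) + L₁ F) :=
    (roc_cont hr).add (cont_L L₁)
  have hexp : ∀ F : Mt, ((fun p => ψ p + κ) (T F) + Q₁ F) + L₁ F
      = ψ (T F) + Q F + L F + ∑ i, ((g i (ℓ i F₀) - c i / 2 * (ℓ i F₀) ^ 2)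
        + σ i * (ℓ i F - ℓ i F₀) + c i / 2 * (ℓ i F) ^ 2) := by
    intro F
    rw [hQ₁a, hL₁a, hκ]
    have : ∑ i, ((g i (ℓ i F₀) - c i / 2 * (ℓ i F₀) ^ 2)
        + σ i * (ℓ i F - ℓ i F₀) + c i / 2 * (ℓ i F) ^ 2)
        = ∑ i, ((g i (ℓ i F₀) - c i / 2 * (ℓ i F₀) ^ 2) - σ i * ℓ i F₀)
          + ∑ i, σ i * ℓ i F + ∑ i, c i / 2 * (ℓ i F) ^ 2 := by
      rw [← Finset.sum_add_distrib, ← Finset.sum_add_distrib]
      refine Finset.sum_congr rfl fun i _ => ?_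
      ring
    rw [this]
    ring
  refine qcAt_of_support (W := fun F => ψ (T F) + ∑ i, g i (ℓ i F) + Q F + L F) (roc_cont h) hVc hV
    (fun F => ?_) ?_
  · rw [hexp]
    have : ∑ i, ((g i (ℓ i F₀) - c i / 2 * (ℓ i F₀) ^ 2)
        + σ i * (ℓ i F - ℓ i F₀) + c i / 2 * (ℓ i F) ^ 2) ≤ ∑ i, g i (ℓ i F) := by
      refine Finset.sum_le_sum fun i _ => ?_
      have := hσ i (ℓ i F)
      linarith
    linarith
  · rw [hexp]
    have : ∑ i, ((g i (ℓ i F₀) - c i / 2 * (ℓ i F₀) ^ 2)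
        + σ i * (ℓ i F₀ - ℓ i F₀) + c i / 2 * (ℓ i F₀) ^ 2) = ∑ i, g i (ℓ i F₀) := by
      refine Finset.sum_congr rfl fun i _ => ?_
      ring
    rw [this]
    ring

end Pool.Agent.H73.MC
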