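import Pool.Agent.H73.MC.Peel1
import Pool.Agent.H73.MC.Peel2

/-!
Splitting off functions which look the same in all directions.
-/

set_option autoImplicit false

namespace Pool.Agent.H73.MC

open Matrix Set Filter Topology MeasureTheory
open Pool.Agent.Q82.MD (Quasiconvex)

section

variable {E : Type} [NormedAddCommGroup E] [InnerProductSpace ℝ E]

/-- the function looks the same in all directions -/
def SD (χ : E → ℝ) : Prop := ∀ e e' : E, ‖e‖ = ‖e'‖ → ∀ y, ∃ y', ∀ h : ℝ,
  χ (y' + h • e') + χ (y' - h • e') - 2 * χ y' = χ (y + h • e) + χ (y - h • e) - 2 * χ y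

theorem norm_second (y e : E) (h : ℝ) :
    ‖y + h • e‖ ^ 2 + ‖y - h • e‖ ^ 2 - 2 * ‖y‖ ^ 2 = 2 * (h ^ 2 * ‖e‖ ^ 2) := by
  have h1 := parallelogram_law_with_norm ℝ y (h • e)
  have h2 : ‖h • e‖ ^ 2 = h ^ 2 * ‖e‖ ^ 2 := by
    rw [norm_smul, mul_pow, Real.norm_eq_abs, sq_abs]
  rw [h2] at h1
  linarith

theorem altE {χ : E → ℝ} (hc : Continuous χ) (hS : SD χ) (t : ℝ)
    (hn : ¬ ConvexOn ℝ univ (fun y => χ y - t / 2 * ‖y‖ ^ 2)) (e' : E) :
    ∃ (y : E) (h₀ : ℝ), 0 < h₀ ∧ ∀ h, |h| < h₀ →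
      χ (y + h • e') + χ (y - h • e') - 2 * χ y ≤ t * (h ^ 2 * ‖e'‖ ^ 2) := by
  by_cases he' : e' = 0
  · refine ⟨0, 1, one_pos, fun h _ => ?_⟩
    subst he'
    simp
    linarith
  set f : E → ℝ := fun y => χ y - t / 2 * ‖y‖ ^ 2 with hf
  have hfc : Continuous f := by fun_prop
  obtain ⟨a, e, hline⟩ : ∃ a e : E, ¬ ConvexOn ℝ univ (fun s : ℝ => f (a + s • e)) := by
    by_contra hcon
    push Not at hcon
    apply hn
    refine ⟨convex_univ, fun x _ y _ p q hp hq hpq => ?_⟩
    have h1 := (hcon x (y - x)).2 (mem_univ 0) (mem_univ 1) hp hq hpq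
    simp only [smul_eq_mul, mul_zero, mul_one, zero_add, zero_smul, one_smul, add_zero] at h1
    have e1 : x + q • (y - x) = p • x + q • y := by
      have : p = 1 - q := by linarith
      rw [this]; module
    have e2 : x + (y - x) = y := by abel
    rw [e1, e2] at h1
    simpa only [smul_eq_mul] using h1
  have he : e ≠ 0 := by
    intro h
    apply hline
    rw [h]
    simp only [smul_zero, add_zero]
    exact convexOn_const _ convex_univ
  obtain ⟨x, h₀, hh₀, hx⟩ := nonconvex (f := fun s : ℝ => f (a + s • e)) (by fun_prop) hline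
  -- second differences at `y = a + x e` along `e`
  have hy : ∀ h, |h| < h₀ → χ (a + x • e + h • e) + χ (a + x • e - h • e) - 2 * χ (a + x • e)
      ≤ t * (h ^ 2 * ‖e‖ ^ 2) := by
    have key : ∀ h, 0 < h → h < h₀ →
        χ (a + x • e + h • e) + χ (a + x • e - h • e) - 2 * χ (a + x • e)
          ≤ t * (h ^ 2 * ‖e‖ ^ 2) := by
      intro h h1 h2
      have h3 := hx h h1 h2
      have e1 : a + (x + h) • e = a + x • e + h • e := by rw [add_smul, add_assoc]
      have e2 : a + (x - h) • e = a + x • e - h • e := by rw [sub_smul]; abel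
      rw [e1, e2] at h3
      have h4 := congrArg (fun z : ℝ => t / 2 * z) (norm_second (a + x • e) e h)
      simp only [hf] at h3
      linarith
    intro h hh
    rcases lt_trichotomy h 0 with h1 | h1 | h1
    · have := key (-h) (by linarith) (by rw [abs_of_neg h1] at hh; exact hh)
      rw [neg_smul, ← sub_eq_add_neg, sub_neg_eq_add] at this
      have e3 : (-h) ^ 2 = h ^ 2 := by ring
      rw [e3] at this
      linarith
    · subst h1
      simp
      linarith
    · exact key h h1 (by rw [abs_of_pos h1] at hh; exact hh)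
  have hep : 0 < ‖e‖ := norm_pos_iff.2 he
  have hep' : 0 < ‖e'‖ := norm_pos_iff.2 he'
  set c : ℝ := ‖e'‖ / ‖e‖ with hcd
  have hc0 : 0 < c := div_pos hep' hep
  have hce : ‖c • e‖ = ‖e'‖ := by
    rw [norm_smul, Real.norm_eq_abs, abs_of_pos hc0, hcd]; field_simp
  obtain ⟨y', hy'⟩ := hS (c • e) e' hce (a + x • e)
  refine ⟨y', h₀ / c, div_pos hh₀ hc0, fun h hh => ?_⟩
  rw [lt_div_iff₀ hc0] at hh
  rw [hy' h, smul_smul]
  have h5 := hy (h * c) (by rw [abs_mul, abs_of_pos hc0]; exact hh)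
  have h6 : (h * c) ^ 2 * ‖e‖ ^ 2 = h ^ 2 * ‖e'‖ ^ 2 := by
    rw [hcd]; field_simp
  rw [h6] at h5
  exact h5

theorem exists_rank_oneE (T : Mt →ₗ[ℝ] E) (Z : Mt) (hZ : T Z ≠ 0) :
    ∃ H : Mt, H.det = 0 ∧ T H ≠ 0 := by
  by_contra hc
  push Not at hc
  have h1 : Z = Z 0 0 • Matrix.single 0 0 1 + Z 0 1 • Matrix.single 0 1 1
      + Z 1 0 • Matrix.single 1 0 1 + Z 1 1 • Matrix.single 1 1 1 := by
    ext i j
    fin_cases i <;> fin_cases j <;> simp
  have h00 := hc (Matrix.single 0 0 1) (by simp [det_fin_two])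
  have h01 := hc (Matrix.single 0 1 1) (by simp [det_fin_two])
  have h10 := hc (Matrix.single 1 0 1) (by simp [det_fin_two])
  have h11 := hc (Matrix.single 1 1 1) (by simp [det_fin_two])
  rw [h1] at hZ
  simp only [map_add, map_smul, h00, h01, h10, h11, smul_zero, add_zero] at hZ
  exact hZ rfl

theorem cont_T (T : Mt →ₗ[ℝ] E) : Continuous (fun F : Mt => T F) :=
  T.continuous_of_finiteDimensional

theorem peelE {U : Mt → ℝ} {χ : E → ℝ} (T : Mt →ₗ[ℝ] E) (S : E → Mt) (hS : ∀ y, T (S y) = y)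
    (hUc : Continuous U) (hgc : Continuous χ) (hχ : SD χ)
    (hU : ∀ (F H : Mt) (y : E), U (F + S y + H) + U (F + S y - H) - 2 * U (F + S y)
      = U (F + H) + U (F - H) - 2 * U F)
    (hW : ROC (fun F => U F + χ (T F))) :
    ∃ m : ℝ, ROC (fun F => U F + m / 2 * ‖T F‖ ^ 2) ∧
      ConvexOn ℝ univ (fun y => χ y - m / 2 * ‖y‖ ^ 2) := by
  have hℓc : Continuous (fun F : Mt => T F) := cont_T T
  by_cases htriv : ∀ y : E, y = 0
  · refine ⟨0, ?_, ?_⟩
    · intro F H hH t h0 h1
      have h2 := hW F H hH t h0 h1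
      simp only [htriv (T _), norm_zero] at h2 ⊢
      linarith
    · refine ⟨convex_univ, fun x _ y _ a b ha hb hab => ?_⟩
      rw [htriv (a • x + b • y), htriv x, htriv y, smul_eq_mul, smul_eq_mul]
      simp only [norm_zero]
      have : a = 1 - b := by linarith
      rw [this]
      apply le_of_eq; ring
  push Not at htriv
  obtain ⟨y₁, hy₁⟩ := htriv
  -- outside of `T`
  have hout : ∀ t : ℝ, ¬ ConvexOn ℝ univ (fun y => χ y - t / 2 * ‖y‖ ^ 2) →
      ROC (fun F => U F + t / 2 * ‖T F‖ ^ 2) := by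
    intro t ht
    refine roc_of_line fun F H hd => ?_
    obtain ⟨x, h₀, hh₀, hx⟩ := altE hgc hχ t ht (T H)
    refine convex_of_local (by fun_prop) h₀ hh₀ fun s h hh hhs => ?_
    set F' := F + s • H with hF'
    have e1 : F + (s + h) • H = F' + h • H := by rw [hF', add_smul, add_assoc]
    have e2 : F + (s - h) • H = F' - h • H := by rw [hF', sub_smul]; abel
    rw [e1, e2]
    have hd2 : (h • H).det = 0 := Pool.Agent.Helper188.Morrey.det_smul_zero hd h
    have hm := roc_mid hW (F' + S (x - T F')) (h • H) hd2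
    have hu := hU F' (h • H) (x - T F')
    have l0 : T (F' + S (x - T F')) = x := by
      rw [map_add, hS]; abel
    have l1 : T (F' + S (x - T F') + h • H) = x + h • T H := by
      rw [map_add, l0, map_smul]
    have l2 : T (F' + S (x - T F') - h • H) = x - h • T H := by
      rw [map_sub, l0, map_smul]
    have l3 : T (F' + h • H) = T F' + h • T H := by
      rw [map_add, map_smul]
    have l4 : T (F' - h • H) = T F' - h • T H := by
      rw [map_sub, map_smul]
    have hg := hx h (by rw [abs_of_pos hh]; exact hhs)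
    have hnn := congrArg (fun z : ℝ => t / 2 * z) (norm_second (T F') (T H) h)
    simp only [l0, l1, l2] at hm
    rw [l3, l4]
    linarith
  obtain ⟨H₁, hH₁, hℓH₁⟩ := exists_rank_oneE T (S y₁) (by rw [hS]; exact hy₁)
  have hsq : 0 < ‖T H₁‖ ^ 2 := by
    have := norm_pos_iff.2 hℓH₁
    positivity
  set A : Set ℝ := {t | ConvexOn ℝ univ (fun y => χ y - t / 2 * ‖y‖ ^ 2)} with hA
  have hTne : A.Nonempty := by
    by_contra hne
    rw [Set.not_nonempty_iff_eq_empty] at hne
    set t₀ := (-(U H₁ + U (-H₁) - 2 * U 0) - 1) / ‖T H₁‖ ^ 2 with ht₀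
    have h1 : t₀ ∉ A := by rw [hne]; exact fun h => h
    have h2 := roc_mid (hout t₀ h1) 0 H₁ hH₁
    simp only [map_zero, zero_add, zero_sub, norm_zero] at h2
    rw [map_neg, norm_neg] at h2
    have h3 : t₀ * ‖T H₁‖ ^ 2 = -(U H₁ + U (-H₁) - 2 * U 0) - 1 := by
      rw [ht₀]; field_simp
    linarith
  have hTdown : ∀ t ∈ A, ∀ s, s ≤ t → s ∈ A := by
    intro t ht s hs
    have e : (fun y : E => χ y - s / 2 * ‖y‖ ^ 2)
        = fun y => (χ y - t / 2 * ‖y‖ ^ 2) + (t - s) / 2 * ‖y‖ ^ 2 := by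
      funext x; ring
    show ConvexOn ℝ univ (fun y => χ y - s / 2 * ‖y‖ ^ 2)
    rw [e]
    have h2 : ConvexOn ℝ univ (fun y : E => (t - s) / 2 * ‖y‖ ^ 2) := by
      have h3 : ConvexOn ℝ univ (fun y : E => ‖y‖ ^ 2) :=
        (convexOn_norm convex_univ).pow (fun _ _ => norm_nonneg _) 2
      have := h3.smul (by linarith : 0 ≤ (t - s) / 2)
      simpa [smul_eq_mul] using this
    have ht' : ConvexOn ℝ univ (fun y => χ y - t / 2 * ‖y‖ ^ 2) := ht
    exact ht'.add h2
  have hTb : BddAbove A := by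
    refine ⟨(χ y₁ + χ (-y₁) - 2 * χ 0) / ‖y₁‖ ^ 2, fun t ht => ?_⟩
    have hy2 : 0 < ‖y₁‖ ^ 2 := by
      have := norm_pos_iff.2 hy₁
      positivity
    have h2 := ht.2 (mem_univ y₁) (mem_univ (-y₁))
      (by norm_num : (0:ℝ) ≤ 1 / 2) (by norm_num : (0:ℝ) ≤ 1 / 2) (by norm_num)
    have e : ((1:ℝ) / 2) • y₁ + ((1:ℝ) / 2) • -y₁ = 0 := by rw [smul_neg, add_neg_cancel]
    rw [e] at h2
    simp only [smul_eq_mul, norm_neg, norm_zero] at h2
    rw [le_div_iff₀ hy2]
    linarith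
  set m := sSup A with hm
  have hlt : ∀ t, t < m → ConvexOn ℝ univ (fun y => χ y - t / 2 * ‖y‖ ^ 2) := by
    intro t ht
    obtain ⟨s, hs, hts⟩ := exists_lt_of_lt_csSup hTne ht
    exact hTdown s hs t hts.le
  have hgt : ∀ t, m < t → ROC (fun F => U F + t / 2 * ‖T F‖ ^ 2) := by
    intro t ht
    exact hout t fun h => absurd (le_csSup hTb h) (not_le.2 ht)
  refine ⟨m, ?_, ?_⟩
  · intro F H hH t h0 h1
    have h2 := lim_right
      (A := U ((1 - t) • F + t • (F + H)) - (1 - t) * U F - t * U (F + H))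
      (B := 1 / 2 * (‖T ((1 - t) • F + t • (F + H))‖ ^ 2 - (1 - t) * ‖T F‖ ^ 2
        - t * ‖T (F + H)‖ ^ 2)) (m := m) (fun c hc => by
          have := hgt c hc F H hH t h0 h1
          simp only at this
          nlinarith)
    simp only
    nlinarith
  · refine ⟨convex_univ, fun x _ y _ a b ha hb hab => ?_⟩
    have h2 := lim_left
      (A := χ (a • x + b • y) - a * χ x - b * χ y)
      (B := -(1 / 2) * (‖a • x + b • y‖ ^ 2 - a * ‖x‖ ^ 2 - b * ‖y‖ ^ 2)) (m := m) (fun c hc => by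
          have := (hlt c hc).2 (mem_univ x) (mem_univ y) ha hb hab
          simp only [smul_eq_mul] at this
          nlinarith)
    simp only [smul_eq_mul]
    nlinarith

end

end Pool.Agent.H73.MC
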