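import Pool.Agent.H73.MC.Peel3
import Pool.Agent.H73.MC.PeelE

/-!
Rank-one convex functions `ψ(T₀ F) + ∑ χᵢ(Tᵢ F) + Q(F) + L(F)`, the `Tᵢ` independent on `ker T₀`.
-/

set_option autoImplicit false

namespace Pool.Agent.H73.MC

open Matrix Set Filter Topology MeasureTheory
open Pool.Agent.Q82.MD (Quasiconvex)

variable {ι : Type} [Fintype ι] [DecidableEq ι] {E : ι → Type} [∀ i, NormedAddCommGroup (E i)]
  [∀ i, InnerProductSpace ℝ (E i)]

theorem peel_step' (T₀ : Mt →ₗ[ℝ] V2) (T : ∀ i, Mt →ₗ[ℝ] E i) (S : ∀ i, E i →ₗ[ℝ] Mt)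
    (hS₀ : ∀ i y, T₀ (S i y) = 0)
    (hS1 : ∀ i y, T i (S i y) = y) (hS2 : ∀ i j, j ≠ i → ∀ y, T j (S i y) = 0) (ψ : V2 → ℝ)
    (Q : QuadraticForm ℝ Mt) (hψ : Continuous (fun F : Mt => ψ (T₀ F))) (G : ∀ i, E i → ℝ)
    (hG : ∀ i, Continuous (G i))
    (hW : ROC (fun F => ψ (T₀ F) + ∑ i, G i (T i F) + Q F)) (k : ι) (hk : SD (G k)) :
    ∃ c : ℝ, ROC (fun F => ψ (T₀ F)
      + ∑ i, Function.update G k (fun y => c / 2 * ‖y‖ ^ 2) i (T i F)
      + Q F) ∧ ConvexOn ℝ univ (fun y => G k y - c / 2 * ‖y‖ ^ 2) := by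
  have hsplit : ∀ (G' : ∀ i, E i → ℝ) (F : Mt), ∑ i, G' i (T i F)
      = ∑ i ∈ Finset.univ.erase k, G' i (T i F) + G' k (T k F) := fun G' F =>
    (Finset.sum_erase_add Finset.univ (fun i => G' i (T i F)) (Finset.mem_univ k)).symm
  have hW2 : ROC (fun F => (ψ (T₀ F) + ∑ i ∈ Finset.univ.erase k, G i (T i F) + Q F)
      + G k (T k F)) := by
    have e : (fun F : Mt => ψ (T₀ F) + ∑ i, G i (T i F) + Q F)
        = fun F => (ψ (T₀ F) + ∑ i ∈ Finset.univ.erase k, G i (T i F) + Q F) + G k (T k F) := by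
      funext F; rw [hsplit]; ring
    rw [e] at hW
    exact hW
  obtain ⟨c, hc1, hc2⟩ := peelE (T k) (S k) (hS1 k)
    (U := fun F => ψ (T₀ F) + ∑ i ∈ Finset.univ.erase k, G i (T i F) + Q F)
    (by
      refine (hψ.add (continuous_finsetSum _ fun i _ => (hG i).comp (cont_T (T i)))).add
        (cont_Q Q)) (hG k) hk
    (by
      intro F H x
      have t0 : ∀ F' : Mt, T₀ (F' + S k x) = T₀ F' := fun F' => by
        rw [map_add, hS₀, add_zero]
      have t1 : ∀ i, i ≠ k → ∀ F' : Mt, T i (F' + S k x) = T i F' := fun i hi F' => by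
        rw [map_add, hS2 k i hi, add_zero]
      have s1 : ∀ F' : Mt, ∑ i ∈ Finset.univ.erase k, G i (T i (F' + S k x))
          = ∑ i ∈ Finset.univ.erase k, G i (T i F') := fun F' => by
        refine Finset.sum_congr rfl fun i hi => ?_
        rw [t1 i (Finset.ne_of_mem_erase hi)]
      have a1 : F + S k x + H = (F + H) + S k x := by abel
      have a2 : F + S k x - H = (F - H) + S k x := by abel
      have q1 := Q_second Q (F + S k x) H
      have q2 := Q_second Q F H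
      rw [a1, a2] at q1
      rw [a1, a2, t0, t0, t0, s1, s1, s1]
      linarith) hW2
  refine ⟨c, ?_, hc2⟩
  have e : (fun F : Mt => ψ (T₀ F)
      + ∑ i, Function.update G k (fun y => c / 2 * ‖y‖ ^ 2) i (T i F)
      + Q F) = fun F => (ψ (T₀ F) + ∑ i ∈ Finset.univ.erase k, G i (T i F) + Q F)
        + c / 2 * ‖T k F‖ ^ 2 := by
    funext F
    rw [hsplit (Function.update G k (fun y => c / 2 * ‖y‖ ^ 2)) F]
    have s1 : ∑ i ∈ Finset.univ.erase k, Function.update G k (fun y => c / 2 * ‖y‖ ^ 2) i (T i F)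
        = ∑ i ∈ Finset.univ.erase k, G i (T i F) := by
      refine Finset.sum_congr rfl fun i hi => ?_
      rw [Function.update_of_ne (Finset.ne_of_mem_erase hi)]
    rw [s1, Function.update_self]
    ring
  rw [e]
  exact hc1

theorem peel_all' (T₀ : Mt →ₗ[ℝ] V2) (T : ∀ i, Mt →ₗ[ℝ] E i) (S : ∀ i, E i →ₗ[ℝ] Mt)
    (hS₀ : ∀ i y, T₀ (S i y) = 0)
    (hS1 : ∀ i y, T i (S i y) = y) (hS2 : ∀ i j, j ≠ i → ∀ y, T j (S i y) = 0) (ψ : V2 → ℝ)
    (Q : QuadraticForm ℝ Mt) (hψ : Continuous (fun F : Mt => ψ (T₀ F))) (χ : ∀ i, E i → ℝ)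
    (hχ : ∀ i, Continuous (χ i)) (hSD : ∀ i, SD (χ i))
    (hW : ROC (fun F => ψ (T₀ F) + ∑ i, χ i (T i F) + Q F)) :
    ∃ c : ι → ℝ, ROC (fun F => ψ (T₀ F) + ∑ i, c i / 2 * ‖T i F‖ ^ 2 + Q F) ∧
      ∀ i, ConvexOn ℝ univ (fun y => χ i y - c i / 2 * ‖y‖ ^ 2) := by
  have key : ∀ s : Finset ι, ∃ G : ∀ i, E i → ℝ, (∀ i, Continuous (G i)) ∧
      ROC (fun F => ψ (T₀ F) + ∑ i, G i (T i F) + Q F) ∧
      (∀ i ∈ s, ∃ c : ℝ, G i = (fun y => c / 2 * ‖y‖ ^ 2) ∧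
        ConvexOn ℝ univ (fun y => χ i y - c / 2 * ‖y‖ ^ 2)) ∧ (∀ i, i ∉ s → G i = χ i) := by
    intro s
    induction s using Finset.induction_on with
    | empty => exact ⟨χ, hχ, hW, fun i hi => absurd hi (Finset.notMem_empty i), fun i _ => rfl⟩
    | insert k s hk ih =>
      obtain ⟨G, hG1, hG2, hG3, hG4⟩ := ih
      obtain ⟨c, hc1, hc2⟩ := peel_step' T₀ T S hS₀ hS1 hS2 ψ Q hψ G hG1 hG2 k
        (by rw [hG4 k hk]; exact hSD k)
      rw [hG4 k hk] at hc2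
      refine ⟨Function.update G k (fun y => c / 2 * ‖y‖ ^ 2), fun i => ?_, hc1, fun i hi => ?_,
        fun i hi => ?_⟩
      · by_cases h : i = k
        · subst h
          rw [Function.update_self]
          fun_prop
        · rw [Function.update_of_ne h]
          exact hG1 i
      · by_cases h : i = k
        · subst h
          exact ⟨c, Function.update_self .., hc2⟩
        · rw [Function.update_of_ne h]
          exact hG3 i ((Finset.mem_insert.1 hi).resolve_left h)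
      · have h : i ≠ k := fun h => hi (h ▸ Finset.mem_insert_self _ _)
        rw [Function.update_of_ne h]
        exact hG4 i fun h' => hi (Finset.mem_insert_of_mem h')
  obtain ⟨G, _, hG2, hG3, _⟩ := key Finset.univ
  choose c hc1 hc2 using fun i => hG3 i (Finset.mem_univ i)
  refine ⟨c, ?_, hc2⟩
  have e : (fun F : Mt => ψ (T₀ F) + ∑ i, G i (T i F) + Q F)
      = fun F => ψ (T₀ F) + ∑ i, c i / 2 * ‖T i F‖ ^ 2 + Q F := by
    funext F
    have : ∑ i, G i (T i F) = ∑ i, c i / 2 * ‖T i F‖ ^ 2 :=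
      Finset.sum_congr rfl fun i _ => by rw [hc1 i]
    rw [this]
  rw [e] at hG2
  exact hG2

/-- approximate supporting functions -/
theorem qcAt_of_approx {W : Mt → ℝ} {F₀ : Mt} (hW : Continuous W)
    (h : ∀ ε : ℝ, 0 < ε → ∃ V : Mt → ℝ, Continuous V ∧ Quasiconvex V ∧ (∀ F, V F ≤ W F) ∧
      W F₀ - ε ≤ V F₀) : QcAt W F₀ := by
  intro Ω hΩ hb ϑ hK h0
  set v := (volume Ω).toReal with hv
  have hv0 : 0 ≤ v := ENNReal.toReal_nonneg
  have key : ∀ ε : ℝ, 0 < ε → W F₀ * v - ε * v ≤ ∫ x in Ω, W (F₀ + LinearMap.toMatrix'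
      ((fderiv ℝ ϑ x : (Fin 2 → ℝ) →L[ℝ] (Fin 2 → ℝ)) :
        (Fin 2 → ℝ) →ₗ[ℝ] (Fin 2 → ℝ))) := by
    intro ε hε
    obtain ⟨V, hVc, hVq, hVle, hV0⟩ := h ε hε
    have g1 := hVq F₀ Ω hΩ hb ϑ hK h0
    obtain ⟨K, hK⟩ := hK
    have i1 : IntegrableOn (fun x => W (F₀ + LinearMap.toMatrix'
        ((fderiv ℝ ϑ x : (Fin 2 → ℝ) →L[ℝ] (Fin 2 → ℝ)) :
          (Fin 2 → ℝ) →ₗ[ℝ] (Fin 2 → ℝ)))) Ω := Q144.MD.int_grad hW F₀ hb hK
    have i2 : IntegrableOn (fun x => V (F₀ + LinearMap.toMatrix'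
        ((fderiv ℝ ϑ x : (Fin 2 → ℝ) →L[ℝ] (Fin 2 → ℝ)) :
          (Fin 2 → ℝ) →ₗ[ℝ] (Fin 2 → ℝ)))) Ω := Q144.MD.int_grad hVc F₀ hb hK
    have g2 := integral_mono i2 i1 fun x => hVle _
    have g3 : W F₀ * v - ε * v ≤ V F₀ * v := by
      rw [← sub_mul]
      exact mul_le_mul_of_nonneg_right hV0 hv0
    linarith
  have hlim : Tendsto (fun ε : ℝ => W F₀ * v - ε * v) (𝓝[>] 0) (𝓝 (W F₀ * v)) := by
    have hc : Continuous (fun ε : ℝ => W F₀ * v - ε * v) := by fun_prop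
    have := (hc.tendsto 0).mono_left (nhdsWithin_le_nhds (s := Ioi (0:ℝ)))
    simpa using this
  refine le_of_tendsto hlim ?_
  filter_upwards [self_mem_nhdsWithin] with ε hε
  exact key ε hε

/-- the squared norm of a linear map as a quadratic form -/
noncomputable def nq {E' : Type} [NormedAddCommGroup E'] [InnerProductSpace ℝ E']
    (T : Mt →ₗ[ℝ] E') : QuadraticForm ℝ Mt :=
  (QuadraticMap.comp (LinearMap.BilinMap.toQuadraticMap (innerₗ E')) T)

theorem nq_apply {E' : Type} [NormedAddCommGroup E'] [InnerProductSpace ℝ E']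
    (T : Mt →ₗ[ℝ] E') (F : Mt) : nq T F = ‖T F‖ ^ 2 := by
  simp [nq]

theorem peelMain' (T₀ : Mt →ₗ[ℝ] V2)
    (hT : ∀ (ψ : V2 → ℝ) (Q : QuadraticForm ℝ Mt), ROC (fun F => ψ (T₀ F) + Q F) →
      Quasiconvex (fun F => ψ (T₀ F) + Q F))
    (T : ∀ i, Mt →ₗ[ℝ] E i) (S : ∀ i, E i →ₗ[ℝ] Mt) (hS₀ : ∀ i y, T₀ (S i y) = 0)
    (hS1 : ∀ i y, T i (S i y) = y) (hS2 : ∀ i j, j ≠ i → ∀ y, T j (S i y) = 0)
    (hSc : ∀ i, Continuous (S i)) (ψ : V2 → ℝ)
    (χ : ∀ i, E i → ℝ) (hSD : ∀ i, SD (χ i)) (Q : QuadraticForm ℝ Mt) (L : Mt →ₗ[ℝ] ℝ)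
    (h : ROC (fun F => ψ (T₀ F) + ∑ i, χ i (T i F) + Q F + L F)) :
    Quasiconvex (fun F => ψ (T₀ F) + ∑ i, χ i (T i F) + Q F + L F) := by
  have h1 : ROC (fun F => ψ (T₀ F) + ∑ i, χ i (T i F) + Q F) := by
    have := roc_add_lin (-L) h
    have e : (fun F : Mt => (ψ (T₀ F) + ∑ i, χ i (T i F) + Q F + L F) + (-L) F)
        = fun F => ψ (T₀ F) + ∑ i, χ i (T i F) + Q F := by
      funext F; rw [LinearMap.neg_apply]; ring
    rw [e] at this
    exact this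
  have hWc := roc_cont h1
  have hψc : Continuous (fun F : Mt => ψ (T₀ F)) := by
    have hπ : Continuous (fun F : Mt => F - ∑ i, S i (T i F)) :=
      continuous_id.sub (continuous_finsetSum _ fun i _ => (hSc i).comp (cont_T (T i)))
    have hTπ : ∀ F : Mt, T₀ (F - ∑ i, S i (T i F)) = T₀ F := by
      intro F
      rw [map_sub, map_sum]
      have : ∑ i, T₀ (S i (T i F)) = 0 := Finset.sum_eq_zero fun i _ => hS₀ i _
      rw [this, sub_zero]
    have hℓπ : ∀ j, ∀ F : Mt, T j (F - ∑ i, S i (T i F)) = 0 := by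
      intro j F
      rw [map_sub, map_sum]
      have : ∑ i, T j (S i (T i F)) = T j F := by
        rw [Finset.sum_eq_single j]
        · rw [hS1]
        · intro i _ hi
          rw [hS2 i j (Ne.symm hi)]
        · intro hj; exact absurd (Finset.mem_univ j) hj
      rw [this, sub_self]
    have e : (fun F : Mt => ψ (T₀ F)) = fun F =>
        ((fun F => ψ (T₀ F) + ∑ i, χ i (T i F) + Q F) (F - ∑ i, S i (T i F)))
          - ∑ i, χ i 0 - Q (F - ∑ i, S i (T i F)) := by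
      funext F
      simp only [hTπ, hℓπ]
      ring
    rw [e]
    exact ((hWc.comp hπ).sub continuous_const).sub ((cont_Q Q).comp hπ)
  have hgc : ∀ i, Continuous (χ i) := by
    intro k
    have hπ : Continuous (fun x : E k => S k x) := hSc k
    have e : χ k = fun x =>
        ((fun F => ψ (T₀ F) + ∑ i, χ i (T i F) + Q F) (S k x))
          - ψ 0 - ∑ i ∈ Finset.univ.erase k, χ i 0 - Q (S k x) := by
      funext x
      simp only
      rw [hS₀,
        ← Finset.sum_erase_add Finset.univ (fun i => χ i (T i (S k x))) (Finset.mem_univ k)]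
      have s1 : ∑ i ∈ Finset.univ.erase k, χ i (T i (S k x))
          = ∑ i ∈ Finset.univ.erase k, χ i 0 := by
        refine Finset.sum_congr rfl fun i hi => ?_
        rw [hS2 k i (Finset.ne_of_mem_erase hi)]
      rw [s1, hS1]
      ring
    rw [e]
    exact (((hWc.comp hπ).sub continuous_const).sub continuous_const).sub ((cont_Q Q).comp hπ)
  obtain ⟨c, hc1, hc2⟩ := peel_all' T₀ T S hS₀ hS1 hS2 ψ Q hψc χ hgc hSD h1
  -- the supporting function
  set Q₁ : QuadraticForm ℝ Mt := Q + ∑ i, (c i / 2) • nq (T i) with hQ₁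
  have hQ₁a : ∀ F : Mt, Q₁ F = Q F + ∑ i, c i / 2 * ‖T i F‖ ^ 2 := by
    intro F
    rw [hQ₁, _root_.add_apply, _root_.sum_apply]
    congr 1
    refine Finset.sum_congr rfl fun i _ => ?_
    rw [_root_.smul_apply, nq_apply, smul_eq_mul]
  intro F₀
  refine qcAt_of_approx (W := fun F => ψ (T₀ F) + ∑ i, χ i (T i F) + Q F + L F) (roc_cont h)
    fun ε hε => ?_
  set δ : ℝ := ε / (Fintype.card ι + 1) with hδ
  have hcard : (0:ℝ) < Fintype.card ι + 1 := by positivity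
  have hδ0 : 0 < δ := div_pos hε hcard
  have hδs : ∑ _i : ι, δ ≤ ε := by
    rw [Finset.sum_const, Finset.card_univ, nsmul_eq_mul, hδ]
    have h2 : ε / (Fintype.card ι + 1) * (Fintype.card ι + 1) = ε := by field_simp
    have h3 : 0 ≤ ε / ((Fintype.card ι : ℝ) + 1) := hδ0.le
    nlinarith
  have hsup : ∀ i, ∃ (l : E i →L[ℝ] ℝ) (a : ℝ), (∀ y, l y + a ≤ χ i y - c i / 2 * ‖y‖ ^ 2) ∧
      l (T i F₀) + a = (χ i (T i F₀) - c i / 2 * ‖T i F₀‖ ^ 2) - δ := by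
    intro i
    have hcc : Continuous (fun y : E i => χ i y - c i / 2 * ‖y‖ ^ 2) := by
      have := hgc i
      fun_prop
    obtain ⟨l, a, hl1, hl2⟩ := (hc2 i).exists_affine_le_of_lt (𝕜 := ℝ) (mem_univ (T i F₀))
      (sub_lt_self _ hδ0) isClosed_univ (hcc.lowerSemicontinuous.lowerSemicontinuousOn _)
    refine ⟨l, a, fun y => ?_, ?_⟩
    · have := hl1 ⟨y, mem_univ y⟩
      simpa using this
    · simpa using hl2
  choose l a hl1 hl2 using hsup
  set κ : ℝ := ∑ i, a i with hκ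
  set L₁ : Mt →ₗ[ℝ] ℝ := L + ∑ i, ((l i : E i →ₗ[ℝ] ℝ) ∘ₗ T i) with hL₁
  have hL₁a : ∀ F : Mt, L₁ F = L F + ∑ i, l i (T i F) := by
    intro F
    rw [hL₁, LinearMap.add_apply, LinearMap.sum_apply]
    rfl
  have hr : ROC (fun F => (fun p => ψ p + κ) (T₀ F) + Q₁ F) := by
    intro F H hH t h0 h1
    have := hc1 F H hH t h0 h1
    simp only [hQ₁a] at this ⊢
    nlinarith
  have hq := hT (fun p => ψ p + κ) Q₁ hr
  refine ⟨fun F => ((fun p => ψ p + κ) (T₀ F) + Q₁ F) + L₁ F, (roc_cont hr).add (cont_L L₁),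
    qc_add hq (roc_cont hr) (qc_lin L₁) (cont_L L₁), fun F => ?_, ?_⟩
  · simp only
    rw [hQ₁a, hL₁a, hκ]
    have h3 : ∑ i, (l i (T i F) + a i) ≤ ∑ i, (χ i (T i F) - c i / 2 * ‖T i F‖ ^ 2) :=
      Finset.sum_le_sum fun i _ => hl1 i _
    rw [Finset.sum_add_distrib, Finset.sum_sub_distrib] at h3
    linarith
  · simp only
    rw [hQ₁a, hL₁a, hκ]
    have h3 : ∑ i, (l i (T i F₀) + a i)
        = ∑ i, ((χ i (T i F₀) - c i / 2 * ‖T i F₀‖ ^ 2) - δ) :=
      Finset.sum_congr rfl fun i _ => hl2 i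
    rw [Finset.sum_add_distrib, Finset.sum_sub_distrib, Finset.sum_sub_distrib] at h3
    linarith

end Pool.Agent.H73.MC
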