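import Pool.Agent.H73.MC.Peel4

/-!
Functions of one variable and radial functions look the same in all directions; sections.
-/

set_option autoImplicit false

namespace Pool.Agent.H73.MC

open Matrix Set Filter Topology MeasureTheory
open Pool.Agent.Q82.MD (Quasiconvex)

theorem sd_one {d : ℕ} (hd : d = 1) (χ : EuclideanSpace ℝ (Fin d) → ℝ) : SD χ := by
  subst hd
  intro e e' he y
  refine ⟨y, fun h => ?_⟩
  have h1 : e' = e ∨ e' = -e := by
    rw [EuclideanSpace.norm_eq, EuclideanSpace.norm_eq] at he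
    simp only [Finset.univ_unique, Finset.sum_singleton, Real.norm_eq_abs, sq_abs] at he
    rw [Real.sqrt_sq_eq_abs, Real.sqrt_sq_eq_abs, abs_eq_abs] at he
    rcases he with h2 | h2
    · left
      ext i
      have : i = default := Subsingleton.elim _ _
      rw [this]; exact h2.symm
    · right
      ext i
      have : i = default := Subsingleton.elim _ _
      rw [this, PiLp.neg_apply]; linarith
  rcases h1 with h2 | h2
  · rw [h2]
  · rw [h2, smul_neg, sub_neg_eq_add, ← sub_eq_add_neg]; ring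

theorem sd_radial {E : Type} [NormedAddCommGroup E] [InnerProductSpace ℝ E] (k : ℝ → ℝ)
    (y₀ : E) : SD (fun y : E => k ‖y - y₀‖) := by
  intro e e' he y
  set R := (ℝ ∙ (e - e'))ᗮ.reflection with hR
  have hRe : R e = e' := Submodule.reflection_sub he
  refine ⟨y₀ + R (y - y₀), fun h => ?_⟩
  have e1 : y₀ + R (y - y₀) + h • e' - y₀ = R (y + h • e - y₀) := by
    have : y + h • e - y₀ = (y - y₀) + h • e := by abel
    rw [this, map_add, map_smul, hRe]; abel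
  have e2 : y₀ + R (y - y₀) - h • e' - y₀ = R (y - h • e - y₀) := by
    have : y - h • e - y₀ = (y - y₀) - h • e := by abel
    rw [this, map_sub R (y - y₀) (h • e), map_smul, hRe]; abel
  have e3 : y₀ + R (y - y₀) - y₀ = R (y - y₀) := by abel
  simp only
  rw [e1, e2, e3, LinearIsometryEquiv.norm_map, LinearIsometryEquiv.norm_map,
    LinearIsometryEquiv.norm_map]

variable {ι : Type} [Fintype ι] [DecidableEq ι] {E : ι → Type} [∀ i, NormedAddCommGroup (E i)]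
  [∀ i, InnerProductSpace ℝ (E i)]

/-- sections from joint surjectivity on the kernel -/
theorem exists_sections (T₀ : Mt →ₗ[ℝ] V2) (T : ∀ i, Mt →ₗ[ℝ] E i)
    (h : ∀ y : ∀ i, E i, ∃ Z : Mt, T₀ Z = 0 ∧ ∀ i, T i Z = y i) :
    ∃ S : ∀ i, E i →ₗ[ℝ] Mt, (∀ i y, T₀ (S i y) = 0) ∧ (∀ i y, T i (S i y) = y) ∧
      (∀ i j, j ≠ i → ∀ y, T j (S i y) = 0) ∧ ∀ i, Continuous (S i) := by
  have key : ∀ i, ∃ S : E i →ₗ[ℝ] Mt, (∀ y, T₀ (S y) = 0) ∧ (∀ y, T i (S y) = y) ∧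
      (∀ j, j ≠ i → ∀ y, T j (S y) = 0) ∧ Continuous S := by
    intro i
    set K : Submodule ℝ Mt := LinearMap.ker T₀ ⊓ ⨅ j : {j // j ≠ i}, LinearMap.ker (T j.1) with hK
    have hmem : ∀ Z : Mt, Z ∈ K ↔ T₀ Z = 0 ∧ ∀ j, j ≠ i → T j Z = 0 := by
      intro Z
      rw [hK, Submodule.mem_inf, Submodule.mem_iInf, LinearMap.mem_ker]
      constructor
      · rintro ⟨h1, h2⟩
        exact ⟨h1, fun j hj => LinearMap.mem_ker.1 (h2 ⟨j, hj⟩)⟩
      · rintro ⟨h1, h2⟩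
        exact ⟨h1, fun j => LinearMap.mem_ker.2 (h2 j.1 j.2)⟩
    have hsurj : Function.Surjective ((T i) ∘ₗ K.subtype) := by
      intro y
      obtain ⟨Z, hZ0, hZ⟩ := h (Pi.single i y)
      refine ⟨⟨Z, (hmem Z).2 ⟨hZ0, fun j hj => ?_⟩⟩, ?_⟩
      · rw [hZ j, Pi.single_eq_of_ne hj]
      · show T i Z = y
        rw [hZ i, Pi.single_eq_same]
    obtain ⟨S, hS⟩ := ((T i) ∘ₗ K.subtype).exists_rightInverse_of_surjective
      (LinearMap.range_eq_top.2 hsurj)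
    have hS' : ∀ y, T i (S y : Mt) = y := fun y => LinearMap.congr_fun hS y
    have hfd : FiniteDimensional ℝ (E i) :=
      Module.Finite.of_surjective ((T i) ∘ₗ K.subtype) hsurj
    refine ⟨K.subtype ∘ₗ S, fun y => ((hmem _).1 (S y).2).1, hS', fun j hj y =>
      ((hmem _).1 (S y).2).2 j hj, ?_⟩
    exact LinearMap.continuous_of_finiteDimensional _
  choose S h1 h2 h3 h4 using key
  exact ⟨S, h1, h2, h3, h4⟩

/-- columns -/
theorem mixed_col (ψ : V2 → ℝ) (v : V2) (T : ∀ i, Mt →ₗ[ℝ] E i) (χ : ∀ i, E i → ℝ)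
    (hSD : ∀ i, SD (χ i)) (Q : QuadraticForm ℝ Mt) (L : Mt →ₗ[ℝ] ℝ)
    (hT : ∀ y : ∀ i, E i, ∃ Z : Mt, Z.mulVec v = 0 ∧ ∀ i, T i Z = y i)
    (h : ROC (fun F => ψ (F.mulVec v) + ∑ i, χ i (T i F) + Q F + L F)) :
    Quasiconvex (fun F => ψ (F.mulVec v) + ∑ i, χ i (T i F) + Q F + L F) := by
  let T₀ : Mt →ₗ[ℝ] V2 :=
    { toFun := fun F => F.mulVec v
      map_add' := fun F G => Matrix.add_mulVec F G v
      map_smul' := fun a F => Matrix.smul_mulVec a F v }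
  obtain ⟨S, h1, h2, h3, h4⟩ := exists_sections T₀ T hT
  exact peelMain' T₀ (fun ψ Q hr => colClass ψ v Q hr) T S h1 h2 h3 h4 ψ χ hSD Q L h

/-- rows -/
theorem mixed_row (ψ : V2 → ℝ) (v : V2) (T : ∀ i, Mt →ₗ[ℝ] E i) (χ : ∀ i, E i → ℝ)
    (hSD : ∀ i, SD (χ i)) (Q : QuadraticForm ℝ Mt) (L : Mt →ₗ[ℝ] ℝ)
    (hT : ∀ y : ∀ i, E i, ∃ Z : Mt, Matrix.vecMul v Z = 0 ∧ ∀ i, T i Z = y i)
    (h : ROC (fun F => ψ (Matrix.vecMul v F) + ∑ i, χ i (T i F) + Q F + L F)) :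
    Quasiconvex (fun F => ψ (Matrix.vecMul v F) + ∑ i, χ i (T i F) + Q F + L F) := by
  let T₀ : Mt →ₗ[ℝ] V2 :=
    { toFun := fun F => Matrix.vecMul v F
      map_add' := fun F G => Matrix.vecMul_add F G v
      map_smul' := fun a F => Matrix.vecMul_smul v a F }
  obtain ⟨S, h1, h2, h3, h4⟩ := exists_sections T₀ T hT
  exact peelMain' T₀ (fun ψ Q hr => rowClass ψ v Q hr) T S h1 h2 h3 h4 ψ χ hSD Q L h

end Pool.Agent.H73.MC
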