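import Pool.Agent.H73.MC.Alg

/-!
Supporting functions of rank-one convex functions `W(F) = Φ(F e₀, det F) + Q(F)`.
-/

set_option autoImplicit false

namespace Pool.Agent.H73.MC

open Matrix Set Filter Topology
open Pool.Agent.Helper188.Morrey

variable {W : M2 → ℝ} {Φ : V2 → ℝ → ℝ} {Q : QuadraticForm ℝ M2}

theorem qf_zero (Q : QuadraticForm ℝ M2) (β : ℝ) : qf Q β 0 = 0 := by
  have := qf_smul Q β 0 0
  simpa using this

theorem det_col_zero (F : M2) (h : col F = 0) : F.det = 0 := by
  have h0 : F 0 0 = 0 := congrFun h 0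
  have h1 : F 1 0 = 0 := congrFun h 1
  rw [det_fin_two, h0, h1]; ring

theorem bdd_step (hW : RankOneConvex W) (hWe : ∀ F, W F = Φ (col F) F.det + Q F) (σ : ℝ)
    {p z : V2} (hpz : wd p z ≠ 0) (hz : BddBelow (range fun δ : ℝ => Φ z δ - σ * δ)) :
    BddBelow (range fun δ : ℝ => Φ p δ - σ * δ) := by
  obtain ⟨B, hB⟩ := hz
  refine ⟨2 * B - Φ ((2:ℝ) • z - p) 0 - 1 / 2 * qf Q 0 (((2:ℝ) • z - p) - p), ?_⟩
  rintro _ ⟨δ, rfl⟩
  have hd : wd p ((2:ℝ) • z - p) ≠ 0 := by
    have : wd p ((2:ℝ) • z - p) = 2 * wd p z := by simp [wd]; ring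
    rw [this]
    exact mul_ne_zero two_ne_zero hpz
  have h := star1 hW hWe p ((2:ℝ) • z - p) hd δ 0 0 (1 / 2) (by norm_num) (by norm_num)
  have e : (1 - (1:ℝ) / 2) • p + ((1:ℝ) / 2) • ((2:ℝ) • z - p) = z := by
    ext i; simp only [Pi.add_apply, Pi.smul_apply, Pi.sub_apply, smul_eq_mul]; ring
  rw [e] at h
  have hb := hB ⟨(1 - 1 / 2) * δ + 1 / 2 * 0, rfl⟩
  simp only at hb ⊢
  linarith

theorem supp (hW : RankOneConvex W) (hQc : Continuous (fun F : M2 => Q F))
    (hWe : ∀ F, W F = Φ (col F) F.det + Q F) (F₀ : M2) (hF : col F₀ ≠ 0) :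
    ∃ (ψ : V2 → ℝ) (σ : ℝ), RankOneConvex (fun F => ψ (col F) + Q F) ∧
      (∀ F, ψ (col F) + Q F + σ * F.det ≤ W F) ∧ ψ (col F₀) + Q F₀ + σ * F₀.det = W F₀ := by
  have hWc := RankOneConvex.continuous hW
  -- the supporting line in the determinant
  obtain ⟨σ, hσ⟩ := exists_support (fun δ => Φ (col F₀) δ) (by
    intro a b t h0 h1
    have e : (1 - t) • col F₀ + t • col F₀ = col F₀ := by module
    have h := star hW hQc hWe (col F₀) (col F₀) hF hF t (by rw [e]; exact hF) a b 0 h0 h1
    rw [e, sub_self, qf_zero, mul_zero, add_zero] at h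
    exact h) F₀.det
  have hb0 : BddBelow (range fun δ : ℝ => Φ (col F₀) δ - σ * δ) := by
    refine ⟨Φ (col F₀) F₀.det - σ * F₀.det, ?_⟩
    rintro _ ⟨δ, rfl⟩
    have := hσ δ
    simp only at this ⊢
    linarith
  have hb : ∀ p : V2, p ≠ 0 → BddBelow (range fun δ : ℝ => Φ p δ - σ * δ) := by
    intro p hp
    by_cases h : wd p (col F₀) = 0
    · refine bdd_step hW hWe σ (z := J p) ?_ (bdd_step hW hWe σ (z := col F₀) ?_ hb0)
      · have : wd p (J p) = ns p := by simp [wd, J, ns]; ring
        rw [this]; exact (ns_pos hp).ne'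
      · intro h2
        have e1 : p 0 * col F₀ 1 - p 1 * col F₀ 0 = 0 := h
        have e2 : -p 1 * col F₀ 1 - p 0 * col F₀ 0 = 0 := by
          have : wd (J p) (col F₀) = -p 1 * col F₀ 1 - p 0 * col F₀ 0 := by simp [wd, J]
          rw [← this]; exact h2
        have e3 : ns p * ns (col F₀) = 0 := by
          unfold ns
          linear_combination (p 0 * col F₀ 1 - p 1 * col F₀ 0) * e1
            + (-p 1 * col F₀ 1 - p 0 * col F₀ 0) * e2
        exact (mul_pos (ns_pos hp) (ns_pos hF)).ne' e3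
    · exact bdd_step hW hWe σ h hb0
  set ψ₀ : V2 → ℝ := fun p => ⨅ δ : ℝ, (Φ p δ - σ * δ) with hψ₀
  have hle : ∀ p : V2, p ≠ 0 → ∀ δ, ψ₀ p ≤ Φ p δ - σ * δ := fun p hp δ => ciInf_le (hb p hp) δ
  have happ : ∀ p : V2, ∀ ε : ℝ, 0 < ε → ∃ δ, Φ p δ - σ * δ < ψ₀ p + ε := fun p ε hε =>
    exists_lt_of_ciInf_lt (lt_add_of_pos_right _ hε)
  obtain ⟨L, hL1, hL2⟩ := rem ψ₀ (qf Q) (fun β r u => qf_smul Q β r u) (by
    intro β x y t hx hy hz h0 h1
    rw [qf_line]
    refine le_of_forall_pos_le_add fun ε hε => ?_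
    obtain ⟨δ₀, hδ₀⟩ := happ x ε hε
    obtain ⟨δ₁, hδ₁⟩ := happ y ε hε
    have h := star hW hQc hWe x y hx hy t hz δ₀ δ₁ β h0 h1
    have h2 := hle _ hz ((1 - t) * δ₀ + t * δ₁)
    have h1t : 0 ≤ 1 - t := by linarith
    nlinarith [mul_le_mul_of_nonneg_left hδ₀.le h1t, mul_le_mul_of_nonneg_left hδ₁.le h0])
  classical
  refine ⟨fun p => if p = 0 then L else ψ₀ p, σ, ?_, ?_, ?_⟩
  · intro F H hH t h0 h1
    have hd : H.det = 0 := det_eq_zero_of_rank hH.le
    have e : (1 - t) • F + t • (F + H) = F + t • H := by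
      rw [smul_add, sub_smul, one_smul]; abel
    rw [e]
    have e2 : col (F + t • H) = (1 - t) • col F + t • col (F + H) := by
      ext i; simp [col]; ring
    simp only
    rw [e2, Q_line]
    have e3 : col (F + H) - col F = col H := by
      ext i; simp [col]
    by_cases hc : col H = 0
    · have hQ : 0 ≤ Q H := by
        have h := RankOneConvex.seg hW (-H) ((2:ℝ) • H) (det_smul_zero hd _)
          (t := 1 / 2) (by norm_num) (by norm_num)
        have k1 : -H + ((1:ℝ) / 2) • (2:ℝ) • H = 0 := by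
          rw [smul_smul]; norm_num
        have k2 : -H + (2:ℝ) • H = H := by
          rw [two_smul]; abel
        have c1 : col (-H) = 0 := by
          ext i
          have := congrFun hc i
          simp only [col, Pi.zero_apply] at this ⊢
          simp [this]
        have c2 : col (0 : M2) = 0 := rfl
        rw [k1, k2, hWe, hWe, hWe, c1, c2, hc, det_col_zero _ c1, det_col_zero _ hc,
          QuadraticMap.map_neg, QuadraticMap.map_zero, det_zero] at h
        linarith
      have e4 : col (F + H) = col F := by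
        rw [hc] at e3; exact sub_eq_zero.1 e3
      have e5 : (1 - t) • col F + t • col F = col F := by module
      rw [e4, e5]
      nlinarith [mul_nonneg (mul_nonneg h0 (by linarith : 0 ≤ 1 - t)) hQ]
    · obtain ⟨β, hβ⟩ : ∃ β : ℝ, H = mm (col H) (β • col H) := by
        refine ⟨(col H 0 * H 0 1 + col H 1 * H 1 1) / ns (col H), ?_⟩
        have hn := (ns_pos hc).ne'
        rw [det_fin_two] at hd
        have hn' : H 0 0 ^ 2 + H 1 0 ^ 2 ≠ 0 := hn
        have k0 : col H 0 = H 0 0 := rfl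
        have k1 : col H 1 = H 1 0 := rfl
        ext i j
        fin_cases i <;> fin_cases j
        · simp [mm, col]
        · simp [mm, ns, k0, k1]
          field_simp
          linear_combination (-H 1 0) * hd
        · simp [mm, col]
        · simp [mm, ns, k0, k1]
          field_simp
          linear_combination (H 0 0) * hd
      have h := hL2 β (col F) (col (F + H)) t h0 h1
      rw [qf_line, e3] at h
      have e6 : Q H = qf Q β (col H) := by
        conv_lhs => rw [hβ]
        rfl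
      rw [e6]
      linarith
  · intro F
    simp only
    rw [hWe]
    by_cases hc : col F = 0
    · rw [if_pos hc, hc, det_col_zero F hc, mul_zero, add_zero]
      -- `L ≤ Φ 0 0`
      have hu : (![1, 0] : V2) ≠ 0 := fun h => by
        have := congrFun h 0
        simp at this
      have hg : ∀ s : ℝ, Φ (s • ![1, 0]) 0 = W (mm (s • ![1, 0]) 0) - Q (mm (s • ![1, 0]) 0) := by
        intro s
        have h := hWe (mm (s • ![1, 0]) 0)
        have : wd (s • ![1, 0]) 0 = 0 := by simp [wd]
        rw [col_mm, det_mm, this] at h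
        linarith
      have hc2 : Continuous (fun s : ℝ => W (mm (s • ![1, 0]) 0) - Q (mm (s • ![1, 0]) 0)) := by
        have h1 : Continuous (fun s : ℝ => mm (s • ![1, 0]) 0) :=
          cont_mm.comp (f := fun s : ℝ => (s • ![1, 0], 0)) (by fun_prop)
        exact (hWc.comp h1).sub (hQc.comp h1)
      have h0 : W (mm ((0:ℝ) • ![1, 0]) 0) - Q (mm ((0:ℝ) • ![1, 0]) 0) = Φ 0 0 := by
        rw [← hg 0, zero_smul]
      have lim1 : Tendsto (fun s : ℝ => Φ (s • ![1, 0]) 0) (𝓝[>] 0) (𝓝 (Φ 0 0)) := by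
        simp only [hg]
        rw [← h0]
        exact (hc2.tendsto 0).mono_left nhdsWithin_le_nhds
      have lim2 : Tendsto (fun s : ℝ => Φ ((-s) • ![1, 0]) 0) (𝓝[>] 0) (𝓝 (Φ 0 0)) := by
        have h00 := ((hc2.comp continuous_neg).tendsto 0).mono_left
          (nhdsWithin_le_nhds (s := Ioi (0:ℝ)))
        have h01 : ((fun s : ℝ => W (mm (s • ![1, 0]) 0) - Q (mm (s • ![1, 0]) 0)) ∘ fun a => -a) 0
            = Φ 0 0 := by
          rw [← h0]
          simp only [Function.comp, neg_zero]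
        rw [h01] at h00
        refine h00.congr fun s => ?_
        simp only [Function.comp]
        exact (hg (-s)).symm
      have lim3 : Tendsto (fun s : ℝ => s ^ 2 * qf Q 0 ![1, 0]) (𝓝[>] 0) (𝓝 0) := by
        have hcont : Continuous (fun s : ℝ => s ^ 2 * qf Q 0 ![1, 0]) := by fun_prop
        have := (hcont.tendsto 0).mono_left (nhdsWithin_le_nhds (s := Ioi (0:ℝ)))
        simpa using this
      have lim := ((lim1.add lim2).div_const 2).add lim3
      have hLe : L ≤ (Φ 0 0 + Φ 0 0) / 2 + 0 := by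
        refine ge_of_tendsto lim ?_
        filter_upwards [self_mem_nhdsWithin] with s hs
        have hs' : (0:ℝ) < s := hs
        have hsu : s • (![1, 0] : V2) ≠ 0 := smul_ne_zero hs'.ne' hu
        have h := hL1 _ hsu
        have h1 := hle _ hsu 0
        have h2 := hle (-(s • ![1, 0])) (neg_ne_zero.2 hsu) 0
        rw [qf_smul] at h
        rw [← neg_smul] at h h2
        linarith
      linarith
    · rw [if_neg hc]
      have := hle _ hc F.det
      linarith
  · show (if col F₀ = 0 then L else ψ₀ (col F₀)) + Q F₀ + σ * F₀.det = W F₀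
    rw [if_neg hF, hWe]
    have h1 : ψ₀ (col F₀) = Φ (col F₀) F₀.det - σ * F₀.det := by
      refine le_antisymm (hle _ hF _) (le_ciInf fun δ => ?_)
      have := hσ δ
      linarith
    rw [h1]; ring

end Pool.Agent.H73.MC
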